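import Pool.Agent.H63.YP.Pth

/-!
# The switching lemma for matchings
-/

set_option autoImplicit false
set_option linter.unusedSectionVars false

namespace Pool.Agent.H63.YP

open Finset Pool.Agent.H63.YL Relation

variable {P H : Type} [Fintype P] [DecidableEq P] [Fintype H] [DecidableEq H]

open Classical in
/-- few restrictions are bad for a list of terms -/
theorem bad_card {L : List (Finset (P × H))} {f : Finset (P × H)} {s l D : ℕ} (hs : 1 ≤ s)
    (hL : ∀ T ∈ L, (T \ f).card ≤ s) (hf : PM f) (hPH : Fintype.card P ≤ Fintype.card H + 1)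
    (hl : l + f.card ≤ Fintype.card H)
    (hbig : (Fintype.card P - (Fintype.card H - l)) * (Fintype.card H - (Fintype.card H - l)) *
      (8 * s * (l + 1) ^ 2) ≤ Fintype.card H - l + 1 - f.card) :
    (((Om f (Fintype.card H - l)).filter fun ρ => ∃ β, ReflTransGen (Next L) ρ β ∧
      ρ.card + D < β.card).card : ℝ) * 2 ^ (D + 1) ≤ l * (Om f (Fintype.card H - l)).card := by
  set k := Fintype.card H - l with hk
  set A : ℝ := 2 * s * ((l : ℝ) + 1) ^ 2 with hA
  have h1 : ((Om f k).filter fun ρ => ∃ β, ReflTransGen (Next L) ρ β ∧ ρ.card + D < β.card) ⊆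
      ((Icc 1 l).filter fun j => D < 2 * j).biUnion fun j => (Om f (k + j)).biUnion fun τ =>
        univ.filter fun ρ => En L f j τ ρ := by
    intro ρ hρ
    rw [mem_filter] at hρ
    obtain ⟨h1, β, h2, h3⟩ := hρ
    obtain ⟨h4, h5, h6⟩ := mem_Om.1 h1
    obtain ⟨j, τ, h7, h8, h9, h10, h11⟩ := path_en h2 h4 h5
    have h12 := pm_card_H h9
    rw [mem_biUnion]
    refine ⟨j, ?_, ?_⟩
    · rw [mem_filter, mem_Icc]; omega
    · rw [mem_biUnion]
      exact ⟨τ, mem_Om.2 ⟨h9, h5.trans h8, by omega⟩, mem_filter.2 ⟨mem_univ _, h7⟩⟩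
  have h2 : ∀ j ∈ (Icc 1 l).filter fun j => D < 2 * j,
      ((((Om f (k + j)).biUnion fun τ => univ.filter fun ρ => En L f j τ ρ).card : ℕ) : ℝ) *
        2 ^ (D + 1) ≤ (Om f k).card := by
    intro j hj
    obtain ⟨hj1, hj2⟩ := mem_filter.1 hj
    rw [mem_Icc] at hj1
    have h3 : ((((Om f (k + j)).biUnion fun τ => univ.filter fun ρ => En L f j τ ρ).card : ℕ) : ℝ)
        ≤ (Om f (k + j)).card * A ^ j := by
      calc ((((Om f (k + j)).biUnion fun τ => univ.filter fun ρ => En L f j τ ρ).card : ℕ) : ℝ)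
          ≤ ∑ τ ∈ Om f (k + j), ((univ.filter fun ρ => En L f j τ ρ).card : ℝ) := by
            exact_mod_cast card_biUnion_le
        _ ≤ ∑ τ ∈ Om f (k + j), A ^ j := by
            refine sum_le_sum fun τ hτ => ?_
            obtain ⟨h4, h5, h6⟩ := mem_Om.1 hτ
            exact en_card hs hL j h4 (by omega) (by omega)
        _ = (Om f (k + j)).card * A ^ j := by rw [sum_const, nsmul_eq_mul]
    have h4 := om_pow (f := f) (k := k) (c := 8 * s * (l + 1) ^ 2) (by omega) hbig j
    have h5 : ((Om f (k + j)).card : ℝ) * (4 * A) ^ j ≤ (Om f k).card := by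
      have h6 : (4 * A : ℝ) = ((8 * s * (l + 1) ^ 2 : ℕ) : ℝ) := by
        rw [hA]; push_cast; ring
      rw [h6]; exact_mod_cast h4
    have h6 : (2 : ℝ) ^ (D + 1) ≤ 4 ^ j := by
      calc (2 : ℝ) ^ (D + 1) ≤ 2 ^ (2 * j) := pow_le_pow_right₀ (by norm_num) (by omega)
        _ = 4 ^ j := by rw [pow_mul]; norm_num
    calc _ ≤ ((Om f (k + j)).card * A ^ j : ℝ) * 2 ^ (D + 1) :=
          mul_le_mul_of_nonneg_right h3 (by positivity)
      _ ≤ ((Om f (k + j)).card * A ^ j : ℝ) * 4 ^ j :=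
          mul_le_mul_of_nonneg_left h6 (by positivity)
      _ = (Om f (k + j)).card * (4 * A) ^ j := by
          have e := mul_pow (4 : ℝ) A j
          rw [e]; clear_value A; ring
      _ ≤ _ := h5
  calc _ ≤ ((((Icc 1 l).filter fun j => D < 2 * j).biUnion fun j =>
        (Om f (k + j)).biUnion fun τ => univ.filter fun ρ => En L f j τ ρ).card : ℝ) *
        2 ^ (D + 1) := by
        refine mul_le_mul_of_nonneg_right ?_ (by positivity)
        exact_mod_cast card_le_card h1
    _ ≤ (∑ j ∈ (Icc 1 l).filter fun j => D < 2 * j,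
        ((((Om f (k + j)).biUnion fun τ => univ.filter fun ρ => En L f j τ ρ).card : ℕ) : ℝ)) *
        2 ^ (D + 1) := by
        refine mul_le_mul_of_nonneg_right ?_ (by positivity)
        exact_mod_cast card_biUnion_le
    _ = ∑ j ∈ (Icc 1 l).filter fun j => D < 2 * j,
        ((((Om f (k + j)).biUnion fun τ => univ.filter fun ρ => En L f j τ ρ).card : ℕ) : ℝ) *
        2 ^ (D + 1) := by rw [sum_mul]
    _ ≤ ∑ j ∈ (Icc 1 l).filter fun j => D < 2 * j, ((Om f k).card : ℝ) := sum_le_sum h2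
    _ = (((Icc 1 l).filter fun j => D < 2 * j).card : ℝ) * (Om f k).card := by
        rw [sum_const, nsmul_eq_mul]
    _ ≤ l * (Om f k).card := by
        refine mul_le_mul_of_nonneg_right ?_ (Nat.cast_nonneg _)
        have h3 := card_filter_le (Icc 1 l) fun j => D < 2 * j
        rw [Nat.card_Icc] at h3
        exact_mod_cast (by omega : ((Icc 1 l).filter fun j => D < 2 * j).card ≤ l)

/-- **A restriction which is good for all lists.** -/
theorem exists_good {I : Type} [Fintype I] (Ls : I → List (Finset (P × H)))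
    {f : Finset (P × H)} {s l D : ℕ} (hs : 1 ≤ s)
    (hL : ∀ i, ∀ T ∈ Ls i, (T \ f).card ≤ s) (hf : PM f)
    (hPH : Fintype.card P ≤ Fintype.card H + 1) (hHP : Fintype.card H ≤ Fintype.card P)
    (hl : l + f.card ≤ Fintype.card H)
    (hbig : (Fintype.card P - (Fintype.card H - l)) * (Fintype.card H - (Fintype.card H - l)) *
      (8 * s * (l + 1) ^ 2) ≤ Fintype.card H - l + 1 - f.card)
    (hI : Fintype.card I * l < 2 ^ (D + 1)) :
    ∃ ρ, PM ρ ∧ f ⊆ ρ ∧ ρ.card = Fintype.card H - l ∧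
      ∀ i β, ReflTransGen (Next (Ls i)) ρ β → β.card ≤ ρ.card + D := by
  classical
  set k := Fintype.card H - l with hk
  by_contra hcon
  push Not at hcon
  have h1 : Om f k ⊆ univ.biUnion fun i => (Om f k).filter fun ρ =>
      ∃ β, ReflTransGen (Next (Ls i)) ρ β ∧ ρ.card + D < β.card := by
    intro ρ hρ
    obtain ⟨h2, h3, h4⟩ := mem_Om.1 hρ
    obtain ⟨i, β, h5, h6⟩ := hcon ρ h2 h3 h4
    rw [mem_biUnion]
    exact ⟨i, mem_univ _, mem_filter.2 ⟨hρ, β, h5, h6⟩⟩
  have h2 : ((Om f k).card : ℝ) * 2 ^ (D + 1) ≤ Fintype.card I * (l * (Om f k).card) := by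
    calc ((Om f k).card : ℝ) * 2 ^ (D + 1) ≤ (∑ i, (((Om f k).filter fun ρ =>
          ∃ β, ReflTransGen (Next (Ls i)) ρ β ∧ ρ.card + D < β.card).card : ℝ)) * 2 ^ (D + 1) := by
          refine mul_le_mul_of_nonneg_right ?_ (by positivity)
          exact_mod_cast (card_le_card h1).trans card_biUnion_le
      _ = ∑ i, (((Om f k).filter fun ρ =>
          ∃ β, ReflTransGen (Next (Ls i)) ρ β ∧ ρ.card + D < β.card).card : ℝ) * 2 ^ (D + 1) := by
          rw [sum_mul]
      _ ≤ ∑ _i : I, ((l : ℝ) * (Om f k).card) :=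
          sum_le_sum fun i _ => bad_card hs (hL i) hf hPH hl hbig
      _ = Fintype.card I * (l * (Om f k).card) := by
          rw [sum_const, card_univ, nsmul_eq_mul]
  have h3 : 0 < (Om f k).card := om_pos hf (by omega) (by omega) hHP
  have h4 : (Om f k).card * 2 ^ (D + 1) ≤ Fintype.card I * (l * (Om f k).card) := by
    exact_mod_cast h2
  have h5 : (Om f k).card * 2 ^ (D + 1) ≤ (Om f k).card * (Fintype.card I * l) := by
    calc _ ≤ _ := h4
      _ = _ := by ring
  have := Nat.le_of_mul_le_mul_left h5 h3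
  omega

end Pool.Agent.H63.YP
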