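import Pool.Agent.H63.YL.Defs

/-!
# Formulas of small depth over partially symmetric formulas

`C.Young b a`: the formula at the node `a` (of arbitrary depth) is invariant under a product of full
symmetric groups of the parts of a partition of the pigeons and of a partition of the holes into at
most `b` parts of arbitrary sizes. `C.Alt b d a`: the formula is built in depth `d` from such
formulas, each with its own partition. Variables are such formulas for `b = 2`, so formulas of
depth `d` have the property `Alt 2 d`.
-/

set_option autoImplicit false

namespace Pool.Agent.H63.YL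

/-- The formula at `a` is invariant under all permutations of the pigeons and of the holes which
preserve some colouring with at most `b` colours of the pigeons and one of the holes. -/
def Circuit.Young {P H : Type} (C : Circuit P H) (b : ℕ) (a : C.N) : Prop :=
  ∃ (u : P → Fin b) (v : H → Fin b), ∀ (σ : Equiv.Perm P) (τ : Equiv.Perm H),
    (∀ i, u (σ i) = u i) → (∀ j, v (τ j) = v j) → C.Img σ τ a a

/-- The formula at `a` is built in depth `d` from formulas with the property `Young b`. -/
def Circuit.Alt {P H : Type} (C : Circuit P H) (b : ℕ) : ℕ → C.N → Prop
  | 0, a => C.Young b a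
  | d + 1, a => C.Young b a ∨ ∀ x ∈ (C.gate a).children, C.Alt b d x.node

/-- The line `Λ` is invariant itself, or all its members are built in depth `d` from invariant
formulas. -/
def Circuit.AltLine {P H : Type} (C : Circuit P H) (b d : ℕ) (Λ : Set (Lit C.N)) : Prop :=
  (∃ (u : P → Fin b) (v : H → Fin b), ∀ (σ : Equiv.Perm P) (τ : Equiv.Perm H),
    (∀ i, u (σ i) = u i) → (∀ j, v (τ j) = v j) → C.ImgL σ τ Λ Λ) ∨
    ∀ x ∈ Λ, C.Alt b d x.node

end Pool.Agent.H63.YL
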