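import Pool.Agent.H63.YP.Alt
import Pool.Agent.H63.YL.Ext

/-!
# The levels of nodes in the extended circuit
-/

set_option autoImplicit false
set_option linter.unusedSectionVars false

namespace Pool.Agent.H63.YP

open Pool.Agent.H63.YL Equiv

variable {P H : Type}

/-- the nodes below nodes with few blocks -/
def B0 (D : Circuit P H) (b : ℕ) : Set D.N := {a | ∃ r, D.Young b r ∧ Below D r a}

/-- the levels -/
def BB (D : Circuit P H) (b : ℕ) : ℕ → Set D.N
  | 0 => B0 D b
  | i + 1 => BB D b i ∪ {a | ∃ S, D.gate a = .and S ∧ ∀ x ∈ S, x.node ∈ BB D b i}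

theorem BB_succ (D : Circuit P H) (b i : ℕ) : BB D b i ⊆ BB D b (i + 1) := Set.subset_union_left

theorem BB_zero (D : Circuit P H) (b i : ℕ) : B0 D b ⊆ BB D b i := by
  induction i with
  | zero => exact subset_rfl
  | succ i ih => exact ih.trans (BB_succ D b i)

theorem BB_new (D : Circuit P H) (b i : ℕ) : ∀ a ∈ BB D b (i + 1), a ∉ BB D b i →
    ∃ S, D.gate a = .and S ∧ ∀ x ∈ S, x.node ∈ BB D b i := by
  rintro a (h | h) h'
  · exact absurd h h'
  · exact h

theorem Young.mono {C : Circuit P H} {b b' : ℕ} (h : b ≤ b') {a : C.N} (ha : C.Young b a) :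
    C.Young b' a := by
  obtain ⟨u, v, huv⟩ := ha
  refine ⟨fun i => Fin.castLE h (u i), fun j => Fin.castLE h (v j), ?_⟩
  intro σ τ hσ hτ
  exact huv σ τ (fun i => Fin.castLE_injective h (hσ i)) (fun j => Fin.castLE_injective h (hτ j))

theorem Alt.mono {C : Circuit P H} {b b' : ℕ} (h : b ≤ b') {d : ℕ} : ∀ {a : C.N}, C.Alt b d a →
    C.Alt b' d a := by
  induction d with
  | zero => intro a ha; exact Young.mono h ha
  | succ d ih =>
    rintro a (ha | ha)
    · exact Or.inl (Young.mono h ha)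
    · exact Or.inr fun x hx => ih (ha x hx)

theorem AltLine.mono {C : Circuit P H} {b b' : ℕ} (h : b ≤ b') {d : ℕ} {Λ : Set (Lit C.N)}
    (hΛ : C.AltLine b d Λ) : C.AltLine b' d Λ := by
  rcases hΛ with ⟨u, v, huv⟩ | hΛ
  · left
    refine ⟨fun i => Fin.castLE h (u i), fun j => Fin.castLE h (v j), ?_⟩
    intro σ τ hσ hτ
    exact huv σ τ (fun i => Fin.castLE_injective h (hσ i))
      (fun j => Fin.castLE_injective h (hτ j))
  · exact Or.inr fun x hx => Alt.mono h (hΛ x hx)

/-- variables have two blocks -/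
theorem young_var [DecidableEq P] [DecidableEq H] {C : Circuit P H} {a : C.N} {i : P} {j : H}
    (h : C.gate a = .var i j) : C.Young 2 a := by
  refine ⟨fun i' => if i' = i then 1 else 0, fun j' => if j' = j then 1 else 0, ?_⟩
  intro σ τ hσ hτ
  have h1 : σ i = i := by
    have := hσ i
    by_contra h2
    simp [h2] at this
  have h2 : τ j = j := by
    have := hτ j
    by_contra h2
    simp [h2] at this
  refine ⟨fun x y => x = a ∧ y = a, ?_, rfl, rfl⟩
  rintro x y ⟨rfl, rfl⟩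
  exact Or.inl ⟨i, j, h, by rw [h1, h2, h]⟩

theorem young_ext (R : Refutation P H) {b : ℕ} {a : R.C.N} (h : R.C.Young b a) :
    R.ext.Young b (Sum.inl a) := by
  obtain ⟨u, v, huv⟩ := h
  exact ⟨u, v, fun σ τ hσ hτ => img_ext R (huv σ τ hσ hτ)⟩

theorem alt_mem (R : Refutation P H) [DecidableEq P] [DecidableEq H] {b : ℕ} (hb : 2 ≤ b)
    {d : ℕ} : ∀ {a : R.C.N}, R.C.Alt b d a → (Sum.inl a : R.ext.N) ∈ BB R.ext b d := by
  induction d with
  | zero => intro a ha; exact ⟨_, young_ext R ha, Below.refl⟩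
  | succ d ih =>
    rintro a (ha | ha)
    · exact BB_zero _ _ _ ⟨_, young_ext R ha, Below.refl⟩
    · rcases hg : R.C.gate a with ⟨i, j⟩ | S
      · refine BB_zero _ _ _ ⟨_, Young.mono hb (young_var (i := i) (j := j) ?_), Below.refl⟩
        rw [ext_gate_inl, hg]; rfl
      · right
        refine ⟨Lit.map Sum.inl '' S, by rw [ext_gate_inl, hg]; rfl, ?_⟩
        rintro _ ⟨x, hx, rfl⟩
        exact ih (ha x (by rw [hg]; exact hx))

/-- the nodes of the lines -/
theorem line_mem (R : Refutation P H) [DecidableEq P] [DecidableEq H] {b : ℕ} (hb : 2 ≤ b)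
    {d : ℕ} {Λ : R.lines} (h : R.C.AltLine b d Λ.1) : (Sum.inr Λ : R.ext.N) ∈ BB R.ext b (d + 1) := by
  rcases h with ⟨u, v, huv⟩ | h
  · refine BB_zero _ _ _ ⟨Sum.inr Λ, ⟨u, v, ?_⟩, Below.refl⟩
    intro σ τ hσ hτ
    exact img_line R (huv σ τ hσ hτ)
  · right
    refine ⟨_, ext_gate_inr R Λ, ?_⟩
    rintro _ ⟨x, hx, rfl⟩
    exact alt_mem R hb (h x hx)

end Pool.Agent.H63.YP
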