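import Pool.Agent.H63.YP.Om

/-!
# Encodings of bad restrictions

`L` is a list of terms (matchings), `first L τ` is the first term compatible with `τ`. `En L f j τ ρ`
says that the restriction `ρ` is encoded by the matching `τ` with `j` more pairs: `τ` arises from `ρ`
by a path in the canonical decision tree, if the pairs of the tree are replaced by the pairs of the
terms. At most `(2 s (l + 1)^2)^j` restrictions are encoded by `τ`.
-/

set_option autoImplicit false
set_option linter.unusedSectionVars false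

namespace Pool.Agent.H63.YP

open Finset Pool.Agent.H63.YL

variable {P H : Type} [Fintype P] [DecidableEq P] [Fintype H] [DecidableEq H]

/-- the first term compatible with `τ` -/
noncomputable def first (L : List (Finset (P × H))) (τ : Finset (P × H)) :
    Option (Finset (P × H)) :=
  open Classical in L.find? fun T => decide (PM (T ∪ τ))

theorem first_some {L : List (Finset (P × H))} {τ T : Finset (P × H)} (h : first L τ = some T) :
    T ∈ L ∧ PM (T ∪ τ) := by
  unfold first at h
  exact ⟨List.mem_of_find?_eq_some h, by simpa using List.find?_some h⟩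

theorem first_none {L : List (Finset (P × H))} {τ : Finset (P × H)} (h : first L τ = none) :
    ∀ T ∈ L, ¬ PM (T ∪ τ) := by
  unfold first at h
  intro T hT
  have := List.find?_eq_none.1 h T hT
  simpa using this

theorem first_mono {L : List (Finset (P × H))} {ρ τ T : Finset (P × H)} (h : first L ρ = some T)
    (hρ : ρ ⊆ τ) (hT : PM (T ∪ τ)) : first L τ = some T := by
  unfold first at h ⊢
  rw [List.find?_eq_some_iff_append] at h ⊢
  obtain ⟨-, as, bs, h1, h2⟩ := h
  refine ⟨by simpa using hT, as, bs, h1, ?_⟩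
  intro a ha
  have h3 := h2 a ha
  simp only [Bool.not_eq_eq_eq_not, Bool.not_true, decide_eq_false_iff_not] at h3 ⊢
  exact fun h4 => h3 (h4.mono (union_subset_union_right hρ))

/-- `π` is a set of pairs which covers the points of `σ`, all its pairs touch points of `σ` -/
def Cov (σ π : Finset (P × H)) : Prop :=
  dm σ ⊆ dm π ∧ ∀ p ∈ π, ∃ x ∈ dm σ, Touch p x

/-- the encoding relation -/
inductive En (L : List (Finset (P × H))) (f : Finset (P × H)) :
    ℕ → Finset (P × H) → Finset (P × H) → Prop
  | nil (τ : Finset (P × H)) : En L f 0 τ τ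
  | cons {j : ℕ} {τ T σ π ρ : Finset (P × H)} : first L τ = some T → σ ⊆ T \ f → σ ⊆ τ →
      σ.Nonempty → Cov σ π → PM ((τ \ σ) ∪ π) → Disjoint (τ \ σ) π →
      En L f j ((τ \ σ) ∪ π) ρ → En L f (j + σ.card) τ (ρ \ π)

/-- the pairs given by partners -/
def ph (σ : Finset (P × H)) (g : (p : P × H) → p ∈ σ → H × P) : Finset (P × H) :=
  σ.attach.image (fun p => (p.1.1, (g p.1 p.2).1)) ∪
    σ.attach.image (fun p => ((g p.1 p.2).2, p.1.2))

theorem card_le_ph {σ : Finset (P × H)} (hσ : PM σ) (g : (p : P × H) → p ∈ σ → H × P) :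
    σ.card ≤ (ph σ g).card := by
  have h1 : (σ.attach.image (fun p => (p.1.1, (g p.1 p.2).1))).card = σ.card := by
    rw [card_image_of_injOn, card_attach]
    rintro ⟨p, hp⟩ - ⟨q, hq⟩ - hpq
    have h2 := (Prod.mk.inj hpq).1
    exact Subtype.ext (Prod.ext h2 ((hσ p hp q hq).1 h2))
  rw [← h1]
  exact card_le_card subset_union_left

/-- every cover by free points is given by partners -/
theorem exists_ph {θ σ π : Finset (P × H)} (hσ : PM σ) (hc : Cov σ π) (h1 : PM (θ ∪ π))
    (h2 : Disjoint θ π) :
    ∃ g ∈ σ.pi (fun _ => fH θ ×ˢ fP θ), ph σ g = π := by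
  classical
  have hπ : PM π := h1.mono subset_union_right
  have ha : ∀ p : P × H, p ∈ σ → ∃ j, (p.1, j) ∈ π := fun p hp =>
    inl_mem_dm.1 (hc.1 (inl_mem_dm.2 ⟨p.2, hp⟩))
  have hb : ∀ p : P × H, p ∈ σ → ∃ i, (i, p.2) ∈ π := fun p hp =>
    inr_mem_dm.1 (hc.1 (inr_mem_dm.2 ⟨p.1, hp⟩))
  choose a ha using ha
  choose b hb using hb
  refine ⟨fun p hp => (a p hp, b p hp), ?_, ?_⟩
  · rw [mem_pi]
    intro p hp
    rw [mem_product]
    constructor
    · rw [mem_fH, inr_mem_dm]
      rintro ⟨i, hi⟩
      have h3 := (h1 _ (mem_union_left _ hi) _ (mem_union_right _ (ha p hp))).2 rfl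
      simp only at h3
      rw [h3] at hi
      exact (disjoint_left.1 h2) hi (ha p hp)
    · rw [mem_fP, inl_mem_dm]
      rintro ⟨j, hj⟩
      have h3 := (h1 _ (mem_union_left _ hj) _ (mem_union_right _ (hb p hp))).1 rfl
      simp only at h3
      rw [h3] at hj
      exact (disjoint_left.1 h2) hj (hb p hp)
  · ext q
    unfold ph
    simp only [mem_union, mem_image, mem_attach, true_and, Subtype.exists]
    constructor
    · rintro (⟨p, hp, rfl⟩ | ⟨p, hp, rfl⟩)
      · exact ha p hp
      · exact hb p hp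
    · intro hq
      obtain ⟨x, hx, hqx⟩ := hc.2 q hq
      obtain ⟨p, hp, hpx⟩ := mem_dm.1 hx
      rcases x with i | j
      · left
        rcases hpx with hpx | hpx
        · rcases hqx with hqx | hqx
          · refine ⟨p, hp, ?_⟩
            have e1 : p.1 = q.1 := by
              rw [← hqx] at hpx; exact Sum.inl_injective hpx
            exact Prod.ext e1 ((hπ _ (ha p hp) _ hq).1 e1)
          · cases hqx
        · cases hpx
      · right
        rcases hpx with hpx | hpx
        · cases hpx
        · rcases hqx with hqx | hqx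
          · cases hqx
          · refine ⟨p, hp, ?_⟩
            have e1 : p.2 = q.2 := by
              rw [← hqx] at hpx; exact Sum.inr_injective hpx
            exact Prod.ext ((hπ _ (hb p hp) _ hq).2 e1) e1

open Classical in
/-- **Few restrictions have the same code.** -/
theorem en_card {L : List (Finset (P × H))} {f : Finset (P × H)} {s l : ℕ} (hs : 1 ≤ s)
    (hL : ∀ T ∈ L, (T \ f).card ≤ s) :
    ∀ (j : ℕ) {τ : Finset (P × H)}, PM τ → Fintype.card P + j ≤ l + 1 + τ.card →
      Fintype.card H + j ≤ l + τ.card →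
      ((univ.filter fun ρ => En L f j τ ρ).card : ℝ) ≤ (2 * s * ((l : ℝ) + 1) ^ 2) ^ j := by
  intro j
  induction j using Nat.strong_induction_on with
  | _ j ih =>
  intro τ hτ hjP hjH
  set A : ℝ := 2 * s * ((l : ℝ) + 1) ^ 2 with hA
  have hs' : (1 : ℝ) ≤ s := by exact_mod_cast hs
  have hA0 : 0 < A := by rw [hA]; positivity
  rcases Nat.eq_zero_or_pos j with rfl | hj
  · have h1 : (univ.filter fun ρ => En L f 0 τ ρ) ⊆ {τ} := by
      intro ρ hρ
      rw [mem_filter] at hρ
      rw [mem_singleton]
      generalize hj : 0 = j' at hρ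
      rcases hρ.2 with _ | @⟨j'', _, T, σ, π, ρ', -, -, -, hσ', -⟩
      · rfl
      · have := card_pos.2 hσ'; omega
    have h2 := card_le_card h1
    rw [card_singleton] at h2
    rw [pow_zero]; exact_mod_cast h2
  -- the term
  rcases hT : first L τ with _ | T
  · have h1 : (univ.filter fun ρ => En L f j τ ρ) = ∅ := by
      rw [filter_eq_empty_iff]
      intro ρ _ hρ
      rcases hρ with _ | @⟨j'', _, T, σ, π, ρ', h, -⟩
      · omega
      · rw [hT] at h; cases h
    rw [h1, card_empty, Nat.cast_zero]; positivity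
  obtain ⟨hTL, hTτ⟩ := first_some hT
  set SS := (T \ f).powerset.filter fun σ => σ.Nonempty ∧ σ.card ≤ j ∧ σ ⊆ τ with hSS
  let X : Finset (P × H) → Finset (Finset (P × H)) := fun σ =>
    (σ.pi (fun _ => fH (τ \ σ) ×ˢ fP (τ \ σ))).biUnion fun g =>
      if PM ((τ \ σ) ∪ ph σ g) ∧ Disjoint (τ \ σ) (ph σ g) then
        (univ.filter fun ρ => En L f (j - σ.card) ((τ \ σ) ∪ ph σ g) ρ).image
          fun ρ => ρ \ ph σ g
      else ∅
  have h1 : (univ.filter fun ρ => En L f j τ ρ) ⊆ SS.biUnion X := by
    intro ρ hρ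
    rw [mem_filter] at hρ
    rcases hρ.2 with _ | @⟨j'', _, T', σ, π, ρ', h2, h3, h4, h5, h6, h7, h8, h9⟩
    · omega
    · rw [hT] at h2
      injection h2 with h2
      subst h2
      rw [mem_biUnion]
      refine ⟨σ, ?_, ?_⟩
      · rw [hSS, mem_filter, mem_powerset]
        exact ⟨h3, h5, by omega, h4⟩
      · obtain ⟨g, hg, rfl⟩ := exists_ph (hτ.mono h4) h6 h7 h8
        rw [mem_biUnion]
        refine ⟨g, hg, ?_⟩
        rw [if_pos ⟨h7, h8⟩, mem_image]
        refine ⟨ρ', ?_, rfl⟩
        rw [mem_filter]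
        refine ⟨mem_univ _, ?_⟩
        rw [Nat.add_sub_cancel]
        exact h9
  have h2 : ∀ σ ∈ SS, ((X σ).card : ℝ) ≤ A ^ j * (1 / (2 * s)) ^ σ.card := by
    intro σ hσ
    rw [hSS, mem_filter, mem_powerset] at hσ
    obtain ⟨-, h3, h4, h5⟩ := hσ
    have hpos := card_pos.2 h3
    have hθ : PM (τ \ σ) := hτ.mono sdiff_subset
    have hcard : (τ \ σ).card + σ.card = τ.card := card_sdiff_add_card_eq_card h5
    have h6 : ∀ g ∈ σ.pi (fun _ => fH (τ \ σ) ×ˢ fP (τ \ σ)),
        (((if PM ((τ \ σ) ∪ ph σ g) ∧ Disjoint (τ \ σ) (ph σ g) then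
        (univ.filter fun ρ => En L f (j - σ.card) ((τ \ σ) ∪ ph σ g) ρ).image
          fun ρ => ρ \ ph σ g
      else ∅ : Finset (Finset (P × H))).card : ℕ) : ℝ) ≤ A ^ (j - σ.card) := by
      intro g _
      split_ifs with h7
      · have h8 := card_le_ph (hτ.mono h5) g
        have h9 := card_union_of_disjoint h7.2
        refine le_trans ?_ (ih (j - σ.card) (by omega) h7.1 (by omega) (by omega))
        exact_mod_cast card_image_le
      · rw [card_empty, Nat.cast_zero]; positivity
    have h7 : ((σ.pi (fun _ => fH (τ \ σ) ×ˢ fP (τ \ σ))).card : ℝ) ≤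
        (((l : ℝ) + 1) ^ 2) ^ σ.card := by
      rw [card_pi, prod_const, card_product, card_fH hθ, card_fP hθ]
      have e1 : Fintype.card H - (τ \ σ).card ≤ l + 1 := by omega
      have e2 : Fintype.card P - (τ \ σ).card ≤ l + 1 := by omega
      have e3 := Nat.mul_le_mul e1 e2
      have e4 : (((Fintype.card H - (τ \ σ).card) * (Fintype.card P - (τ \ σ).card) : ℕ) : ℝ) ≤
          ((l : ℝ) + 1) ^ 2 := by
        rw [pow_two]; exact_mod_cast e3
      push_cast
      push_cast at e4
      exact pow_le_pow_left₀ (by positivity) e4 _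
    calc ((X σ).card : ℝ) ≤ ∑ g ∈ σ.pi (fun _ => fH (τ \ σ) ×ˢ fP (τ \ σ)),
          (((if PM ((τ \ σ) ∪ ph σ g) ∧ Disjoint (τ \ σ) (ph σ g) then
        (univ.filter fun ρ => En L f (j - σ.card) ((τ \ σ) ∪ ph σ g) ρ).image
          fun ρ => ρ \ ph σ g
      else ∅ : Finset (Finset (P × H))).card : ℕ) : ℝ) := by
            exact_mod_cast card_biUnion_le
      _ ≤ ∑ g ∈ σ.pi (fun _ => fH (τ \ σ) ×ˢ fP (τ \ σ)), A ^ (j - σ.card) := sum_le_sum h6
      _ = (σ.pi (fun _ => fH (τ \ σ) ×ˢ fP (τ \ σ))).card * A ^ (j - σ.card) := by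
            rw [sum_const, nsmul_eq_mul]
      _ ≤ (((l : ℝ) + 1) ^ 2) ^ σ.card * A ^ (j - σ.card) :=
            mul_le_mul_of_nonneg_right h7 (by positivity)
      _ = A ^ j * (1 / (2 * s)) ^ σ.card := by
            have e1 : A ^ j = A ^ (j - σ.card) * A ^ σ.card := by
              rw [← pow_add]; congr 1; omega
            rw [e1, mul_assoc, ← mul_pow, mul_comm]
            congr 2
            rw [hA]
            field_simp
  calc ((univ.filter fun ρ => En L f j τ ρ).card : ℝ) ≤ ((SS.biUnion X).card : ℝ) := by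
        exact_mod_cast card_le_card h1
    _ ≤ ∑ σ ∈ SS, ((X σ).card : ℝ) := by exact_mod_cast card_biUnion_le
    _ ≤ ∑ σ ∈ SS, A ^ j * (1 / (2 * s)) ^ σ.card := sum_le_sum h2
    _ ≤ A ^ j * 1 := by
        rw [← mul_sum]
        refine mul_le_mul_of_nonneg_left ?_ (by positivity)
        have h3 : ∑ σ ∈ (T \ f).powerset, (1 / (2 * s) : ℝ) ^ σ.card =
            (1 / (2 * s) + 1) ^ (T \ f).card := by
          rw [← sum_pow_mul_eq_add_pow]
          simp
        have h4 : ∑ σ ∈ SS, (1 / (2 * s) : ℝ) ^ σ.card + 1 ≤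
            ∑ σ ∈ (T \ f).powerset, (1 / (2 * s) : ℝ) ^ σ.card := by
          have h5 : (∅ : Finset (P × H)) ∉ SS := by
            rw [hSS, mem_filter]
            rintro ⟨-, h, -⟩
            exact not_nonempty_empty h
          have h6 : ∑ σ ∈ SS, (1 / (2 * s) : ℝ) ^ σ.card + 1 =
              ∑ σ ∈ insert ∅ SS, (1 / (2 * s) : ℝ) ^ σ.card := by
            rw [sum_insert h5, card_empty, pow_zero, add_comm]
          rw [h6]
          refine sum_le_sum_of_subset_of_nonneg ?_ (fun _ _ _ => by positivity)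
          intro σ hσ
          rcases mem_insert.1 hσ with rfl | hσ
          · simp
          · exact (mem_filter.1 hσ).1
        have h5 : (1 / (2 * s) + 1 : ℝ) ^ (T \ f).card ≤ 2 := by
          calc (1 / (2 * s) + 1 : ℝ) ^ (T \ f).card ≤ (1 / (2 * s) + 1 : ℝ) ^ s := by
                refine pow_le_pow_right₀ ?_ (hL T hTL)
                have : (0 : ℝ) ≤ 1 / (2 * s) := by positivity
                linarith
            _ ≤ Real.exp (1 / (2 * s)) ^ s := by
                refine pow_le_pow_left₀ (by positivity) (Real.add_one_le_exp _) _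
            _ = Real.exp (1 / 2) := by
                rw [← Real.exp_nat_mul]
                congr 1
                field_simp
            _ ≤ 2 := by
                have h6 : Real.exp (1 / 2) ^ 2 ≤ 2 ^ 2 := by
                  rw [← Real.exp_nat_mul]
                  norm_num
                  have := Real.exp_one_lt_d9
                  linarith
                exact le_of_pow_le_pow_left₀ (by norm_num) (by norm_num) h6
        linarith
    _ = A ^ j := mul_one _

end Pool.Agent.H63.YP
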