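import Pool.Agent.H63.YL.EvP

/-!
# The evaluation given by a rich matching which leaves few small points free
-/

set_option autoImplicit false
set_option linter.unusedSectionVars false

namespace Pool.Agent.H63.YP

open Equiv Pool.Agent.H63.YL

variable {P H : Type} [Fintype P] [DecidableEq P] [Fintype H] [DecidableEq H]

/-- the evaluation given by a matching which is rich for all nodes in `B` -/
theorem ev_free {D : Circuit P H} {B : Set D.N} {f : Finset (P × H)} {s T K : ℕ}
    (closed : ∀ a ∈ B, ∀ x ∈ (D.gate a).children, x.node ∈ B)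
    (hT : 2 * Nat.card D.N < 2 ^ T) (hK : 12 * T ≤ K) (hf : PM f)
    (hr : ∀ a ∈ B, Rich D a K (12 * T + 4) f) (hsm : ∀ a ∈ B, (small D K a \ dm f).card ≤ s)
    (hsp : ∀ a ∈ B, ∀ y, Below D a y → (sup D a y \ dm f).card ≤ s)
    (hPH : Fintype.card H ≤ Fintype.card P) (room : f.card + 8 * s + 8 ≤ Fintype.card H) :
    Ev D B f s (Fintype.card H)
      (fun α a v => PM α ∧ f ⊆ α ∧ small D K a ⊆ dm α ∧ (val D α a ↔ v = true)) := by
  have hcov : ∀ {X : Finset (P ⊕ H)} {β : Finset (P × H)}, f ⊆ β → X \ dm f ⊆ dm β →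
      X ⊆ dm β := by
    intro X β h1 h2 x hx
    by_cases h3 : x ∈ dm f
    · exact dm_mono h1 h3
    · exact h2 (Finset.mem_sdiff.2 ⟨hx, h3⟩)
  -- the value of a node at larger matchings
  have hmono : ∀ {a : D.N}, a ∈ B → ∀ {α β : Finset (P × H)}, f ⊆ α → α ⊆ β → PM β →
      small D K a ⊆ dm α → (val D α a ↔ val D β a) := by
    intro a ha α β h1 h2 h3 h4
    refine inv hT hK Below.refl (h3.mono h2) h3 ((hr a ha).mono h1) ((hr a ha).mono (h1.trans h2))
      ?_ ?_
    · rw [inter_dm h2]; exact h4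
    · rw [sup_self]; exact Finset.empty_subset _
  have hK2 : 2 ≤ K ∨ B = ∅ := by
    rcases B.eq_empty_or_nonempty with h | ⟨a, ha⟩
    · exact Or.inr h
    · left
      rcases Nat.eq_zero_or_pos T with h | h
      · subst h
        have : Nonempty D.N := ⟨a⟩
        have := Nat.card_pos (α := D.N)
        simp at hT; omega
      · omega
  have hvar : ∀ {a : D.N} {i j}, a ∈ B → D.gate a = .var i j → Sum.inl i ∈ small D K a ∧
      Sum.inr j ∈ small D K a := by
    intro a i j ha hg
    have hK3 : 2 ≤ K := by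
      rcases hK2 with h | h
      · exact h
      · rw [h] at ha; exact absurd ha (Set.notMem_empty _)
    rw [mem_small, mem_small, cl_var_inl hg, cl_var_inr hg, Finset.card_singleton,
      Finset.card_singleton]
    omega
  refine ⟨closed, hf, ?_, ?_, ?_, ?_, ?_, ?_, ?_, ?_, ?_, ?_, room⟩
  · rintro α β a v ha ⟨h1, h2, h3, h4⟩ h5 h6
    exact ⟨h6, h2.trans h5, h3.trans (dm_mono h5), (hmono ha h2 h5 h6 h3).symm.trans h4⟩
  · intro α a ha h1 h2 h3
    obtain ⟨β, h4, h5, h6, h7⟩ := ext_many hPH (small D K a \ dm f) h1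
      (by have := hsm a ha; omega)
    replace h7 := hcov (h2.trans h4) h7
    by_cases h8 : val D β a
    · exact ⟨β, true, h4, h5, by have := hsm a ha; omega, h5, h2.trans h4, h7, by simp [h8]⟩
    · exact ⟨β, false, h4, h5, by have := hsm a ha; omega, h5, h2.trans h4, h7, by simp [h8]⟩
  · rintro α a v ha ⟨h1, h2, h3, h4⟩
    classical
    -- one pair for every point
    have h5 : ∀ x : {x // x ∈ small D K a \ dm f}, ∃ p, p ∈ α ∧ Touch p x.1 := fun x =>
      mem_dm.1 (h3 (Finset.mem_sdiff.1 x.2).1)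
    choose φ hφ using h5
    set β : Finset (P × H) := f ∪ (small D K a \ dm f).attach.image φ with hβ
    have h6 : β ⊆ α := by
      rw [hβ]
      refine Finset.union_subset h2 ?_
      intro p hp
      obtain ⟨x, -, rfl⟩ := Finset.mem_image.1 hp
      exact (hφ x).1
    have h7 : small D K a ⊆ dm β := by
      refine hcov Finset.subset_union_left ?_
      intro x hx
      refine mem_dm.2 ⟨φ ⟨x, hx⟩, ?_, (hφ ⟨x, hx⟩).2⟩
      exact Finset.mem_union_right _ (Finset.mem_image_of_mem _ (Finset.mem_attach _ _))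
    have h8 : f ⊆ β := Finset.subset_union_left
    refine ⟨β, h6, h8, ?_, h1.mono h6, h8, h7, (hmono ha h8 h6 h1 h7).trans h4⟩
    refine (Finset.card_union_le _ _).trans ?_
    have h9 := Finset.card_image_le (s := (small D K a \ dm f).attach) (f := φ)
    rw [Finset.card_attach] at h9
    have := hsm a ha
    omega
  · rintro α a v ⟨h1, h2, -⟩; exact ⟨h1, h2⟩
  · rintro α a ⟨-, -, -, h1⟩ ⟨-, -, -, h2⟩
    simp only [iff_true] at h1
    simp only [Bool.false_eq_true, iff_false] at h2
    exact h2 h1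
  · rintro α a i j ha hg ⟨-, -, -, h1⟩
    rw [val_var hg] at h1
    simpa using h1
  · rintro α a i j ha hg ⟨-, -, -, h1⟩
    rw [val_var hg] at h1
    simpa using h1
  · rintro α a S x v ha hg hx ⟨h1, h2, h3, h4⟩ ⟨-, -, h5, h6⟩ hM
    have hxc : x ∈ (D.gate a).children := by rw [hg]; exact hx
    have hbel : Below D a x.node := Below.refl.child hxc
    have h7 := hsp a ha x.node hbel
    obtain ⟨β, h8, h9, h10, h11⟩ := ext_many hPH (sup D a x.node \ dm f) h1 (by omega)
    replace h11 := hcov (h2.trans h8) h11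
    have h12 : val D β a := (hmono ha h2 h8 h9 h3).1 (by rw [h4])
    have h13 := (val_and hg).1 h12 x hx h11
    have h14 := hmono (closed a ha x hxc) h2 h8 h9 h5
    rw [← h14, h6] at h13
    cases v <;> cases hp : x.pos <;> simp_all
  · rintro α a S ha hg ⟨h1, h2, h3, h4⟩ hM
    have h5 : ¬ val D α a := by simpa using h4
    rw [val_and hg] at h5
    push Not at h5
    obtain ⟨x, hx, h6, h7⟩ := h5
    have hxc : x ∈ (D.gate a).children := by rw [hg]; exact hx
    have hbel : Below D a x.node := Below.refl.child hxc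
    have h8 := hsm _ (closed a ha x hxc)
    obtain ⟨β, h9, h10, h11, h12⟩ := ext_many hPH (small D K x.node \ dm f) h1 (by omega)
    replace h12 := hcov (h2.trans h9) h12
    refine ⟨x, hx, β, h9, h10, by omega, h10, h2.trans h9, h12, ?_⟩
    have h13 : val D α x.node ↔ val D β x.node := by
      refine inv hT hK hbel h1 h10 ((hr a ha).mono h2) ((hr a ha).mono (h2.trans h9)) ?_ ?_
      · rw [inter_dm h9]; exact h3
      · rw [inter_dm h9]; exact h6
    rw [← h13]
    have h14 : ¬ (val D α x.node ↔ x.pos = true) := by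
      rcases h7 with ⟨e1, e2⟩ | ⟨e1, e2⟩
      · intro e; exact e2 (e.1 e1)
      · intro e; exact e1 (e.2 e2)
    cases hp : x.pos <;> rw [hp] at h14 <;> simp at h14 ⊢ <;> exact h14
  · intro α x h1 h2 h3
    exact ext_one h1 hPH h3 x

end Pool.Agent.H63.YP
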