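import Pool.Agent.H63.YP.Init
import Pool.Agent.H63.YP.Climb

/-!
# The lower bound for formulas of small depth over partially symmetric formulas
-/

set_option autoImplicit false

namespace Pool.Agent.H63.YP

open Finset Pool.Agent.H63.YL

/-- the exponent -/
def ce (d : ℕ) : ℕ := 4 * (cc (d + 1) 4 + 100) + 63

theorem core (d : ℕ) {n b t : ℕ} (ht : 2 ≤ t) (hb : 2 ≤ b) (hn : n < 2 ^ t)
    (hcn : b ^ 2 * (ce d * t) ^ ce d ≤ n)
    (R : Refutation (Fin (n + 1)) (Fin n)) (hR : ∀ Λ ∈ R.lines, R.C.AltLine b d Λ) :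
    2 ^ t ≤ R.size := by
  classical
  obtain ⟨c', hc'⟩ : ∃ c', c' = cc (d + 1) 4 := ⟨_, rfl⟩
  have hclimb := climb (d + 1) 4 (by norm_num)
  rw [← hc'] at hclimb
  obtain ⟨C, hC⟩ : ∃ C, C = c' + 100 := ⟨_, rfl⟩
  obtain ⟨c, hc⟩ : ∃ c, c = ce d := ⟨_, rfl⟩
  have hc2 : c = 4 * C + 63 := by rw [hc, ce, ← hc', hC]
  rw [← hc] at hcn
  by_contra hcon
  push Not at hcon
  have hcard : Nat.card R.ext.N = R.size := card_ext R
  have hCt : 1 ≤ C * t := Nat.mul_pos (by omega) (by omega)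
  obtain ⟨l, hl⟩ : ∃ l, l = (C * t) ^ C := ⟨_, rfl⟩
  have hl0 : C * t ≤ l := by
    rw [hl]
    calc C * t = (C * t) ^ 1 := (pow_one _).symm
      _ ≤ (C * t) ^ C := Nat.pow_le_pow_right hCt (by omega)
  have h1 : 2 ^ 60 * b ^ 2 * t * l ^ 4 ≤ n := by
    refine le_trans ?_ hcn
    have hct : 1 ≤ c * t := Nat.mul_pos (by omega) (by omega)
    have e1 : 2 ≤ c * t := by
      calc 2 ≤ c * 1 := by omega
        _ ≤ c * t := Nat.mul_le_mul_left c (by omega)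
    have e2 : t ≤ c * t := Nat.le_mul_of_pos_left _ (by omega)
    have e3 : l ^ 4 ≤ (c * t) ^ (4 * C) := by
      rw [hl, ← pow_mul, mul_comm C 4]
      exact Nat.pow_le_pow_left (Nat.mul_le_mul_right t (by omega)) _
    calc 2 ^ 60 * b ^ 2 * t * l ^ 4 = b ^ 2 * (2 ^ 60 * t * l ^ 4) := by ring
      _ ≤ b ^ 2 * ((c * t) ^ 60 * (c * t) ^ 1 * (c * t) ^ (4 * C)) := by
          refine Nat.mul_le_mul_left _ (Nat.mul_le_mul (Nat.mul_le_mul
            (Nat.pow_le_pow_left e1 60) ?_) e3)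
          rw [pow_one]; exact e2
      _ = b ^ 2 * (c * t) ^ (60 + 1 + 4 * C) := by rw [← pow_add, ← pow_add]
      _ ≤ b ^ 2 * (c * t) ^ c :=
          Nat.mul_le_mul_left _ (Nat.pow_le_pow_right hct (by omega))
  obtain ⟨f, V, E, hf⟩ := init (b := b) R.ext (by omega) hn (by rw [hcard]; exact hcon) (by omega)
    h1
    (by
      refine le_trans ?_ hl0
      exact Nat.mul_le_mul_right t (by omega))
  obtain ⟨f', s', V', E'⟩ := hclimb n t R.ext b 0 l f V (by omega) hn (by rw [hcard]; exact hcon)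
    E hf
    (by
      rw [hl]
      calc (c' * t) ^ c' ≤ (C * t) ^ c' := Nat.pow_le_pow_left (Nat.mul_le_mul_right t (by omega)) _
        _ ≤ (C * t) ^ C := Nat.pow_le_pow_right hCt (by omega))
  refine E'.false fun Λ => ?_
  rw [zero_add]
  exact line_mem R hb (hR Λ.1 Λ.2)

/-- the exponent as a power -/
theorem ce_le (d : ℕ) : 2 * ce d + 2 ≤ (2 ^ 22) ^ (d + 1) := by
  obtain ⟨K, hK⟩ : ∃ K, K = 256 ^ (d + 1) := ⟨_, rfl⟩
  have hK1 : 1 ≤ K := by rw [hK]; exact Nat.one_le_pow _ _ (by norm_num)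
  have h1 : 2 * ce d + 2 ≤ 2 ^ 14 * K := by
    have e : 256 ^ (d + 1 + 1) = K * 256 := by rw [hK, pow_succ]
    unfold ce cc
    rw [e]
    omega
  refine h1.trans ?_
  have h4 : (2 ^ 22) ^ (d + 1) = (2 ^ 14) ^ (d + 1) * K := by
    rw [hK, ← mul_pow]
    norm_num
  rw [h4]
  refine Nat.mul_le_mul_right _ ?_
  calc 2 ^ 14 = (2 ^ 14) ^ 1 := (pow_one _).symm
    _ ≤ (2 ^ 14) ^ (d + 1) := Nat.pow_le_pow_right (by norm_num) (by omega)

/-- **Lower bound for formulas of small depth over partially symmetric formulas.** -/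
theorem plus : ∃ c : ℕ, ∀ d n b t : ℕ, c ^ (d + 1) ≤ t → n < 2 ^ t → 1 ≤ b →
    b ^ 2 * t ^ c ^ (d + 1) ≤ n →
    ∀ R : Refutation (Fin (n + 1)) (Fin n), (∀ Λ ∈ R.lines, R.C.AltLine b d Λ) →
      2 ^ t ≤ R.size := by
  refine ⟨2 ^ 22, ?_⟩
  intro d n b t ht hn hb hbt R hR
  have hce := ce_le d
  obtain ⟨E, hE⟩ : ∃ E, E = (2 ^ 22) ^ (d + 1) := ⟨_, rfl⟩
  rw [← hE] at ht hbt hce
  obtain ⟨c₀, hc₀⟩ : ∃ c₀, c₀ = ce d := ⟨_, rfl⟩
  have hc1 : 1 ≤ c₀ := by rw [hc₀, ce]; omega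
  rw [← hc₀] at hce
  have ht1 : 2 ≤ t := by omega
  have h4 : (2 * b) ^ 2 * (c₀ * t) ^ c₀ ≤ n := by
    refine le_trans ?_ hbt
    calc (2 * b) ^ 2 * (c₀ * t) ^ c₀ = b ^ 2 * (2 ^ 2 * (c₀ * t) ^ c₀) := by ring
      _ ≤ b ^ 2 * (t ^ 2 * (t * t) ^ c₀) := by
          refine Nat.mul_le_mul_left _ (Nat.mul_le_mul (Nat.pow_le_pow_left ht1 2) ?_)
          exact Nat.pow_le_pow_left (Nat.mul_le_mul_right t (by omega)) _
      _ = b ^ 2 * t ^ (2 + 2 * c₀) := by rw [← pow_two t, ← pow_mul, ← pow_add]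
      _ ≤ b ^ 2 * t ^ E :=
          Nat.mul_le_mul_left _ (Nat.pow_le_pow_right (by omega) (by omega))
  exact core d ht1 (by omega) hn (hc₀ ▸ h4) R fun Λ hΛ => AltLine.mono (by omega) (hR Λ hΛ)

end Pool.Agent.H63.YP
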