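import Pool.Agent.H63.YP.Pth

/-!
# A restriction which leaves only few points free in each of many small sets
-/

set_option autoImplicit false
set_option linter.unusedSectionVars false

namespace Pool.Agent.H63.YP

open Finset Pool.Agent.H63.YL

variable {P H : Type} [Fintype P] [DecidableEq P] [Fintype H] [DecidableEq H]

/-- no pair touches two points of `X` -/
def OneSided (X : Finset (P ⊕ H)) : Prop :=
  ∀ (p : P × H), ∀ x ∈ X, ∀ y ∈ X, Touch p x → Touch p y → x = y

theorem OneSided.mono {X Y : Finset (P ⊕ H)} (h : OneSided Y) (hX : X ⊆ Y) : OneSided X :=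
  fun p x hx y hy => h p x (hX hx) y (hX hy)

theorem oneSided_left (X : Finset (P ⊕ H)) : OneSided (X.filter fun x => x.isLeft = true) := by
  intro p x hx y hy h1 h2
  have hx' := (mem_filter.1 hx).2
  have hy' := (mem_filter.1 hy).2
  rcases x with x | x
  · rcases y with y | y
    · rcases h1 with h1 | h1
      · rcases h2 with h2 | h2
        · rw [← h1, ← h2]
        · cases h2
      · cases h1
    · simp at hy'
  · simp at hx'

theorem oneSided_right (X : Finset (P ⊕ H)) : OneSided (X.filter fun x => ¬ x.isLeft = true) := by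
  intro p x hx y hy h1 h2
  have hx' := (mem_filter.1 hx).2
  have hy' := (mem_filter.1 hy).2
  rcases x with x | x
  · simp at hx'
  · rcases y with y | y
    · simp at hy'
    · rcases h1 with h1 | h1
      · cases h1
      · rcases h2 with h2 | h2
        · cases h2
        · rw [← h1, ← h2]

open Classical in
theorem fr_count {f : Finset (P × H)} {X : Finset (P ⊕ H)} (hX : OneSided X) {k r : ℕ}
    (hHP : Fintype.card H ≤ Fintype.card P) (hk : k + r ≤ Fintype.card H) :
    ((Om f k).filter fun ρ => r ≤ (X \ dm ρ).card).card ≤ X.card ^ r * (Om f (k + r)).card := by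
  have h1 : ((Om f k).filter fun ρ => r ≤ (X \ dm ρ).card) ⊆
      (X.powersetCard r ×ˢ Om f (k + r)).image fun y => y.2.filter fun p => ∀ x ∈ y.1, ¬ Touch p x := by
    intro ρ hρ
    obtain ⟨h1, h2⟩ := mem_filter.1 hρ
    obtain ⟨h3, h4, h5⟩ := mem_Om.1 h1
    obtain ⟨U, hU, hUr⟩ := exists_subset_card_eq h2
    obtain ⟨β, h6, h7, -, h9⟩ := ext_many hHP U h3 (by omega)
    have hUX : U ⊆ X := hU.trans sdiff_subset
    have hUρ : ∀ x ∈ U, x ∉ dm ρ := fun x hx => (mem_sdiff.1 (hU hx)).2
    set π := β.filter fun p => ∃ x ∈ U, Touch p x with hπ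
    have hπr : π.card = r := by
      rw [← hUr]
      symm
      have h10 : ∀ x ∈ U, ∃ p ∈ β, Touch p x := fun x hx => mem_dm.1 (h9 hx)
      choose φ hφ hφ' using h10
      refine card_bij (fun x hx => φ x hx) ?_ ?_ ?_
      · intro x hx
        exact mem_filter.2 ⟨hφ x hx, x, hx, hφ' x hx⟩
      · intro x hx y hy hxy
        have h11 := hφ' x hx
        rw [hxy] at h11
        exact hX _ x (hUX hx) y (hUX hy) h11 (hφ' y hy)
      · intro p hp
        obtain ⟨h12, x, hx, hpx⟩ := mem_filter.1 hp
        exact ⟨x, hx, h7.eq_of_touch (hφ x hx) h12 (hφ' x hx) hpx⟩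
    have hdisj : Disjoint ρ π := by
      rw [disjoint_left]
      intro p hp hp2
      obtain ⟨-, x, hx, hpx⟩ := mem_filter.1 hp2
      exact hUρ x hx (mem_dm.2 ⟨p, hp, hpx⟩)
    rw [mem_image]
    refine ⟨(U, ρ ∪ π), ?_, ?_⟩
    · rw [mem_product, mem_powersetCard]
      refine ⟨⟨hUX, hUr⟩, mem_Om.2 ⟨h7.mono (union_subset h6 (filter_subset _ _)),
        h4.trans subset_union_left, ?_⟩⟩
      rw [card_union_of_disjoint hdisj, hπr, h5]
    · ext p
      simp only [mem_filter, mem_union]
      constructor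
      · rintro ⟨hp | hp, h10⟩
        · exact hp
        · obtain ⟨-, x, hx, hpx⟩ := mem_filter.1 hp
          exact absurd hpx (h10 x hx)
      · intro hp
        exact ⟨Or.inl hp, fun x hx hpx => hUρ x hx (mem_dm.2 ⟨p, hp, hpx⟩)⟩
  refine (card_le_card h1).trans (card_image_le.trans ?_)
  rw [card_product, card_powersetCard]
  exact Nat.mul_le_mul_right _ (Nat.choose_le_pow _ _)

/-- **Few free points.** -/
theorem exists_few {I : Type} [Fintype I] (X : I → Finset (P ⊕ H)) {f : Finset (P × H)}
    {w l r : ℕ} (hX : ∀ i, (X i).card ≤ w) (hf : PM f)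
    (hHP : Fintype.card H ≤ Fintype.card P) (hl : l + f.card ≤ Fintype.card H) (hr : r ≤ l)
    (hbig : (Fintype.card P - (Fintype.card H - l)) * (Fintype.card H - (Fintype.card H - l)) *
      (4 * w) ≤ Fintype.card H - l + 1 - f.card)
    (hI : 2 * Fintype.card I < 4 ^ r) :
    ∃ ρ, PM ρ ∧ f ⊆ ρ ∧ ρ.card = Fintype.card H - l ∧ ∀ i, (X i \ dm ρ).card ≤ 2 * r := by
  classical
  set k := Fintype.card H - l with hk
  by_contra hcon
  push Not at hcon
  let Y : I → Bool → Finset (P ⊕ H) := fun i b => (X i).filter fun x => x.isLeft = b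
  have hY : ∀ i b, OneSided (Y i b) := by
    intro i b
    cases b
    · refine (oneSided_right (X i)).mono ?_
      intro x hx
      rw [mem_filter] at hx ⊢
      exact ⟨hx.1, by simp [hx.2]⟩
    · exact oneSided_left (X i)
  have h1 : Om f k ⊆ (univ : Finset (I × Bool)).biUnion fun y => (Om f k).filter fun ρ =>
      r ≤ (Y y.1 y.2 \ dm ρ).card := by
    intro ρ hρ
    obtain ⟨h2, h3, h4⟩ := mem_Om.1 hρ
    obtain ⟨i, hi⟩ := hcon ρ h2 h3 h4
    have h5 : (X i \ dm ρ) ⊆ (Y i true \ dm ρ) ∪ (Y i false \ dm ρ) := by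
      intro x hx
      obtain ⟨h6, h7⟩ := mem_sdiff.1 hx
      rw [mem_union, mem_sdiff, mem_sdiff]
      rcases hb : x.isLeft with _ | _
      · exact Or.inr ⟨mem_filter.2 ⟨h6, hb⟩, h7⟩
      · exact Or.inl ⟨mem_filter.2 ⟨h6, hb⟩, h7⟩
    have h6 := (card_le_card h5).trans (card_union_le _ _)
    rw [mem_biUnion]
    by_cases h7 : r ≤ (Y i true \ dm ρ).card
    · exact ⟨(i, true), mem_univ _, mem_filter.2 ⟨hρ, h7⟩⟩
    · exact ⟨(i, false), mem_univ _, mem_filter.2 ⟨hρ, by simp only; omega⟩⟩
  have h2 := om_pow (f := f) (k := k) (c := 4 * w) (by omega) hbig r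
  have h3 : (Om f k).card * 4 ^ r ≤ 2 * Fintype.card I * (Om f k).card := by
    calc (Om f k).card * 4 ^ r ≤ (∑ _y : I × Bool, w ^ r * (Om f (k + r)).card) * 4 ^ r := by
          refine Nat.mul_le_mul_right _ ((card_le_card h1).trans (card_biUnion_le.trans ?_))
          refine sum_le_sum fun y _ => ?_
          refine (fr_count (hY y.1 y.2) hHP (by omega)).trans ?_
          refine Nat.mul_le_mul_right _ (Nat.pow_le_pow_left ?_ r)
          exact (card_le_card (filter_subset _ _)).trans (hX y.1)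
      _ = 2 * Fintype.card I * ((Om f (k + r)).card * (4 * w) ^ r) := by
          rw [sum_const, card_univ, Fintype.card_prod, Fintype.card_bool, smul_eq_mul, mul_pow]
          ring
      _ ≤ 2 * Fintype.card I * (Om f k).card := Nat.mul_le_mul_left _ h2
  have h4 : 0 < (Om f k).card := om_pos hf (by omega) (by omega) hHP
  have h5 : (Om f k).card * 4 ^ r ≤ (Om f k).card * (2 * Fintype.card I) := by
    rw [mul_comm (Om f k).card (2 * Fintype.card I)]; exact h3
  have := Nat.le_of_mul_le_mul_left h5 h4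
  omega

end Pool.Agent.H63.YP
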