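import Pool.Agent.H63.YP.Fr
import Pool.Agent.H63.YP.EvQ
import Pool.Agent.H63.YP.Lev
import Pool.Agent.H63.YL.Final

/-!
# The first level
-/

set_option autoImplicit false
set_option linter.unusedSectionVars false

namespace Pool.Agent.H63.YP

open Finset Pool.Agent.H63.YL

/-- few points have colours which are shared by less than `L` points -/
theorem rare_le {P : Type} [Fintype P] [DecidableEq P] {b : ℕ} (u : P → Fin b) (L : ℕ) :
    (univ.filter fun i : P => {i' : P | (u i' : ℕ) = u i}.ncard < L).card ≤ b * L := by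
  classical
  have h1 : (univ.filter fun i : P => {i' : P | (u i' : ℕ) = u i}.ncard < L) ⊆
      (univ : Finset (Fin b)).biUnion fun c => if (univ.filter fun i => u i = c).card < L then
        univ.filter fun i => u i = c else ∅ := by
    intro i hi
    rw [mem_filter] at hi
    rw [mem_biUnion]
    refine ⟨u i, mem_univ _, ?_⟩
    have h2 : {i' : P | (u i' : ℕ) = u i} = ((univ.filter fun i' => u i' = u i : Finset P) : Set P) := by
      ext x; simp [Fin.val_inj]
    rw [h2, Set.ncard_coe_finset] at hi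
    rw [if_pos hi.2]
    simp
  refine (card_le_card h1).trans (card_biUnion_le.trans ?_)
  calc ∑ c : Fin b, (if (univ.filter fun i => u i = c).card < L then
        univ.filter fun i => u i = c else ∅ : Finset P).card ≤ ∑ _c : Fin b, L := by
        refine sum_le_sum fun c _ => ?_
        split_ifs with h
        · exact h.le
        · simp
    _ = b * L := by simp

theorem young_small {P H : Type} [Fintype P] [DecidableEq P] [Fintype H] [DecidableEq H]
    {D : Circuit P H} {b L : ℕ} (hL : 3 ≤ L) {r : D.N} (h : D.Young b r) :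
    (small D L r).card ≤ 2 * b * L := by
  classical
  obtain ⟨u, v, huv⟩ := h
  have h1 : small D L r ⊆
      ((univ.filter fun i : P => {i' : P | (u i' : ℕ) = u i}.ncard < L).image Sum.inl) ∪
      ((univ.filter fun j : H => {j' : H | (v j' : ℕ) = v j}.ncard < L).image Sum.inr) := by
    intro x hx
    rw [mem_small] at hx
    rw [mem_union, mem_image, mem_image]
    rcases x with i | j
    · left
      refine ⟨i, mem_filter.2 ⟨mem_univ _, ?_⟩, rfl⟩
      by_contra h2
      have h3 := block_inl (C := D) (a := r) (u := fun i => (u i : ℕ))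
        (fun σ hσ => huv σ 1 (fun i => Fin.ext (hσ i)) (fun _ => rfl)) hL (i := i) (by omega)
      omega
    · right
      refine ⟨j, mem_filter.2 ⟨mem_univ _, ?_⟩, rfl⟩
      by_contra h2
      have h3 := block_inr (C := D) (a := r) (v := fun j => (v j : ℕ))
        (fun τ hτ => huv 1 τ (fun _ => rfl) (fun j => Fin.ext (hτ j))) hL (j := j) (by omega)
      omega
  refine (card_le_card h1).trans ((card_union_le _ _).trans ?_)
  rw [card_image_of_injective _ Sum.inl_injective, card_image_of_injective _ Sum.inr_injective]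
  have h2 := rare_le u L
  have h3 := rare_le v L
  calc _ ≤ b * L + b * L := Nat.add_le_add h2 h3
    _ = 2 * b * L := by ring

private theorem nums {n t b l L : ℕ} (ht : 1 ≤ t) (hb : 1 ≤ b)
    (hl : 2 ^ 60 * b ^ 2 * t * l ^ 4 ≤ n)
    (hl2 : 100 * t ≤ l) (hL1 : 2 ^ 15 * n * t ≤ L ^ 2) (hL2 : L ^ 2 ≤ 2 ^ 17 * n * t) :
    2 ^ 37 * t ≤ L ∧ 1000 ≤ n ∧ (l + 1) * l * (4 * (4 * b * L)) + l ≤ n / 4 ∧ 2 ^ 60 * t ≤ n := by
  have hl1 : 1 ≤ l := by omega
  have h1 : 1 ≤ l ^ 4 := Nat.one_le_pow _ _ hl1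
  have hb2 : 1 ≤ b ^ 2 := Nat.one_le_pow _ _ hb
  have h3 : 2 ^ 60 * t ≤ n := by
    refine le_trans ?_ hl
    calc 2 ^ 60 * t = 2 ^ 60 * 1 * t * 1 := by ring
      _ ≤ 2 ^ 60 * b ^ 2 * t * l ^ 4 :=
        Nat.mul_le_mul (Nat.mul_le_mul_right t (Nat.mul_le_mul_left _ hb2)) h1
  have hn : 2 ^ 60 ≤ n := by
    refine le_trans ?_ h3
    exact Nat.le_mul_of_pos_right _ ht
  refine ⟨?_, by omega, ?_, h3⟩
  · by_contra h5
    push Not at h5
    have h6 : L ^ 2 < (2 ^ 37 * t) ^ 2 := Nat.pow_lt_pow_left h5 (by norm_num)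
    have h7 : (2 ^ 37 * t) ^ 2 ≤ 2 ^ 15 * n * t := by
      calc (2 ^ 37 * t) ^ 2 = 2 ^ 74 * t ^ 2 := by ring
        _ ≤ 2 ^ 75 * t ^ 2 := Nat.mul_le_mul_right _ (by norm_num)
        _ = 2 ^ 15 * (2 ^ 60 * t) * t := by ring
        _ ≤ 2 ^ 15 * n * t := Nat.mul_le_mul_right t (Nat.mul_le_mul_left _ h3)
    omega
  · have h5 : (2 ^ 16 * (32 * b * L * l ^ 2)) ^ 2 ≤ n ^ 2 := by
      calc (2 ^ 16 * (32 * b * L * l ^ 2)) ^ 2 = 2 ^ 42 * b ^ 2 * l ^ 4 * L ^ 2 := by ring
        _ ≤ 2 ^ 42 * b ^ 2 * l ^ 4 * (2 ^ 17 * n * t) := Nat.mul_le_mul_left _ hL2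
        _ = 2 ^ 59 * b ^ 2 * t * l ^ 4 * n := by ring
        _ ≤ 2 ^ 60 * b ^ 2 * t * l ^ 4 * n := by
            refine Nat.mul_le_mul_right _ (Nat.mul_le_mul_right _ (Nat.mul_le_mul_right _
              (Nat.mul_le_mul_right _ ?_)))
            norm_num
        _ ≤ n * n := Nat.mul_le_mul_right _ hl
        _ = n ^ 2 := (pow_two n).symm
    have h6 : 2 ^ 16 * (32 * b * L * l ^ 2) ≤ n := by
      by_contra h7
      push Not at h7
      have := Nat.pow_lt_pow_left h7 (by norm_num : (2 : ℕ) ≠ 0)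
      omega
    have h7 : (l + 1) * l * (4 * (4 * b * L)) ≤ 32 * b * L * l ^ 2 := by
      calc (l + 1) * l * (4 * (4 * b * L)) ≤ (2 * l) * l * (4 * (4 * b * L)) := by
            refine Nat.mul_le_mul_right _ (Nat.mul_le_mul_right _ (by omega))
        _ = 32 * b * L * l ^ 2 := by ring
    have h8 : l ≤ l ^ 4 := by
      calc l = l ^ 1 := (pow_one _).symm
        _ ≤ l ^ 4 := Nat.pow_le_pow_right hl1 (by norm_num)
    have h9 : 2 ^ 60 * l ≤ n := by
      refine le_trans ?_ hl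
      calc 2 ^ 60 * l = 2 ^ 60 * 1 * 1 * l := by ring
        _ ≤ 2 ^ 60 * b ^ 2 * t * l ^ 4 :=
          Nat.mul_le_mul (Nat.mul_le_mul (Nat.mul_le_mul_left _ hb2) ht) h8
    omega

/-- **The first level.** -/
theorem init {n t b l : ℕ} (D : Circuit (Fin (n + 1)) (Fin n)) (ht : 1 ≤ t) (hn : n < 2 ^ t)
    (hS : Nat.card D.N < 2 ^ t) (hb : 1 ≤ b) (hl : 2 ^ 60 * b ^ 2 * t * l ^ 4 ≤ n)
    (hl2 : 100 * t ≤ l) :
    ∃ (f : Finset (Fin (n + 1) × Fin n)) (R : Finset (Fin (n + 1) × Fin n) → D.N → Bool → Prop),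
      Ev D (BB D b 0) f (4 * t) n R ∧ f.card + l = n := by
  classical
  have : Fintype D.N := Fintype.ofFinite D.N
  have hcardP : Fintype.card (Fin (n + 1)) = n + 1 := Fintype.card_fin _
  have hcardH : Fintype.card (Fin n) = n := Fintype.card_fin _
  have hZ : Fintype.card (Fin (n + 1) ⊕ Fin n) = 2 * n + 1 := by
    rw [Fintype.card_sum, hcardP, hcardH]; omega
  obtain ⟨L, hL1, hL2⟩ : ∃ L : ℕ, 2 ^ 15 * n * t ≤ L ^ 2 ∧ L ^ 2 ≤ 2 ^ 17 * n * t := by
    refine ⟨Nat.sqrt (2 ^ 15 * n * t) + 1, ?_, ?_⟩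
    · exact (Nat.lt_succ_sqrt' _).le
    · have h1 := Nat.sqrt_le' (2 ^ 15 * n * t)
      have h2 : 1 ≤ Nat.sqrt (2 ^ 15 * n * t) := by
        rw [Nat.le_sqrt]
        have h3 : 1 ≤ n := by
          rcases Nat.eq_zero_or_pos n with h0 | h0
          · subst h0
            have h4 : 0 < 2 ^ 60 * b ^ 2 * t * l ^ 4 :=
              Nat.mul_pos (Nat.mul_pos (Nat.mul_pos (by norm_num) (pow_pos hb _)) ht)
                (pow_pos (by omega) _)
            omega
          · exact h0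
        calc 1 * 1 ≤ 2 ^ 15 * 1 * 1 := by norm_num
          _ ≤ 2 ^ 15 * n * t := Nat.mul_le_mul (Nat.mul_le_mul_left _ h3) ht
      calc (Nat.sqrt (2 ^ 15 * n * t) + 1) ^ 2 ≤ (2 * Nat.sqrt (2 ^ 15 * n * t)) ^ 2 :=
            Nat.pow_le_pow_left (by omega) 2
        _ = 4 * Nat.sqrt (2 ^ 15 * n * t) ^ 2 := by ring
        _ ≤ 4 * (2 ^ 15 * n * t) := Nat.mul_le_mul_left _ h1
        _ = 2 ^ 17 * n * t := by ring
  obtain ⟨hLt, hn1, hbig, htn⟩ := nums ht hb hl hl2 hL1 hL2
  obtain ⟨K, hK⟩ : ∃ K, K = L / 2 := ⟨_, rfl⟩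
  obtain ⟨T, hT⟩ : ∃ T, T = t + 1 := ⟨_, rfl⟩
  have hKL : L ≤ 2 * K + 1 := by omega
  have hK1 : 2 ^ 35 * t ≤ K := by omega
  have hLn : K ≤ n := by
    have h1 : L * L ≤ n * n := by
      calc L * L = L ^ 2 := (pow_two L).symm
        _ ≤ 2 ^ 17 * n * t := hL2
        _ = n * (2 ^ 17 * t) := by ring
        _ ≤ n * n := Nat.mul_le_mul_left n (le_trans (Nat.mul_le_mul_right t (by norm_num)) htn)
    have h2 : L ≤ n := Nat.mul_self_le_mul_self_iff.1 h1
    omega
  obtain ⟨f₁, hf₁, hf₁m, hrich⟩ := exists_rich_all D (m := n / 2) (K := K) (κ := 12 * T + 4)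
    (by rw [hcardP]; omega) (by rw [hcardH]; omega) (by rw [hcardP]; omega)
    (by rw [hcardH]; omega) (by rw [hcardP]; omega) (by rw [hcardH]; omega)
    (by
      rw [hcardP, hcardH, hT]
      exact numeric ht hn hL1 hS hn1 hK (by omega))
  have hT2 : 2 * Nat.card D.N < 2 ^ T := by rw [hT, pow_succ]; omega
  have hKLn : 3 * T * (2 * n + 1) ≤ K * L := by
    have h1 : 3 * T * (2 * n + 1) ≤ 18 * (n * t) := by
      calc 3 * T * (2 * n + 1) ≤ 3 * (2 * t) * (3 * n) :=
            Nat.mul_le_mul (Nat.mul_le_mul_left 3 (by omega)) (by omega)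
        _ = 18 * (n * t) := by ring
    have h2 : 2 ^ 15 * (n * t) ≤ L * L := by
      calc 2 ^ 15 * (n * t) = 2 ^ 15 * n * t := by ring
        _ ≤ L ^ 2 := hL1
        _ = L * L := pow_two L
    have h3 : L * L ≤ (2 * K + 1) * L := Nat.mul_le_mul_right L hKL
    have h4 : (2 * K + 1) * L ≤ 3 * (K * L) := by
      calc (2 * K + 1) * L ≤ (3 * K) * L := Nat.mul_le_mul_right L (by omega)
        _ = 3 * (K * L) := by ring
    omega
  -- sizes
  have hbL : L ≤ b * L := Nat.le_mul_of_pos_left _ hb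
  have hsmall : ∀ a ∈ BB D b 0, (small D K a).card ≤ 3 * (b * L) := by
    rintro a ⟨r, hr, hra⟩
    have h1 := small_card hra (K := K) (L := L) hT2 (by omega) (by omega) (by omega)
    have h2 := young_small (L := L) (by omega) hr
    have h3 : 3 * T * Fintype.card (Fin (n + 1) ⊕ Fin n) / L ≤ L := by
      rw [hZ]
      apply Nat.div_le_of_le_mul
      exact hKLn.trans (Nat.mul_le_mul_right L (by omega))
    have h4 : 2 * b * L = 2 * (b * L) := by ring
    omega
  have hsup : ∀ a ∈ BB D b 0, ∀ y, Below D a y → (sup D a y).card ≤ 4 * b * L := by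
    intro a ha y hy
    have h1 := sup_card hy (M := K) hT2 (by omega) (by omega)
    have h2 := hsmall a ha
    have h3 : 3 * T * Fintype.card (Fin (n + 1) ⊕ Fin n) / K ≤ L := by
      rw [hZ]
      apply Nat.div_le_of_le_mul
      exact hKLn
    have h4 : 4 * b * L = 4 * (b * L) := by ring
    omega
  have hsmall' : ∀ a ∈ BB D b 0, (small D K a).card ≤ 4 * b * L := by
    intro a ha
    have h4 : 4 * b * L = 4 * (b * L) := by ring
    have := hsmall a ha
    omega
  -- the sets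
  let X : D.N ⊕ (D.N × D.N) → Finset (Fin (n + 1) ⊕ Fin n) := Sum.elim
    (fun a => if a ∈ BB D b 0 then small D K a else ∅)
    (fun y => if y.1 ∈ BB D b 0 ∧ Below D y.1 y.2 then sup D y.1 y.2 else ∅)
  have hX : ∀ i, (X i).card ≤ 4 * b * L := by
    rintro (a | ⟨a, y⟩)
    · simp only [X, Sum.elim_inl]
      split_ifs with h
      · exact hsmall' a h
      · simp
    · simp only [X, Sum.elim_inr]
      split_ifs with h
      · exact hsup a h.1 y h.2
      · simp
  obtain ⟨f, hf, hff, hfc, hfew⟩ := exists_few X (f := f₁) (w := 4 * b * L) (l := l) (r := t + 1)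
    hX hf₁ (by rw [hcardH, hcardP]; omega) (by rw [hcardH, hf₁m]; omega) (by omega)
    (by
      rw [hcardH, hcardP, hf₁m]
      have e1 : n + 1 - (n - l) = l + 1 := by omega
      have e2 : n - (n - l) = l := by omega
      rw [e1, e2]
      omega)
    (by
      rw [Fintype.card_sum, Fintype.card_prod, ← Nat.card_eq_fintype_card (α := D.N)]
      set S := Nat.card D.N with hSdef
      have h1 : S + 1 ≤ 2 ^ t := hS
      have h2 : (0 : ℕ) < 2 ^ t := by positivity
      calc 2 * (S + S * S) = 2 * (S * (S + 1)) := by ring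
        _ ≤ 2 * (2 ^ t * 2 ^ t) := Nat.mul_le_mul_left 2 (Nat.mul_le_mul hS.le h1)
        _ < 4 * (2 ^ t * 2 ^ t) := by
            have : 0 < 2 ^ t * 2 ^ t := Nat.mul_pos h2 h2
            omega
        _ = 4 ^ (t + 1) := by
            rw [← pow_add, ← two_mul, pow_mul, pow_succ]
            norm_num
            ring)
  rw [hcardH] at hfc
  have E := ev_free (D := D) (B := BB D b 0) (f := f) (s := 4 * t) (T := T) (K := K) ?_ hT2
    (by omega) hf (fun a _ => (hrich a).mono hff) ?_ ?_ (by rw [hcardH, hcardP]; omega)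
    (by rw [hcardH]; omega)
  · rw [hcardH] at E
    exact ⟨f, _, E, by omega⟩
  · rintro a ⟨r, hr, hra⟩ x hx
    exact ⟨r, hr, hra.child hx⟩
  · intro a ha
    have h1 := hfew (Sum.inl a)
    simp only [X, Sum.elim_inl, if_pos ha] at h1
    omega
  · intro a ha y hy
    have h1 := hfew (Sum.inr (a, y))
    simp only [X, Sum.elim_inr] at h1
    rw [if_pos ⟨ha, hy⟩] at h1
    omega

end Pool.Agent.H63.YP
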