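import Pool.Agent.H63.YP.Sw
import Pool.Agent.H63.YL.Sound

/-!
# One more level
-/

set_option autoImplicit false
set_option linter.unusedSectionVars false

namespace Pool.Agent.H63.YP

open Finset Pool.Agent.H63.YL Relation

variable {P H : Type} [Fintype P] [DecidableEq P] [Fintype H] [DecidableEq H]

/-- certificates for the value false of the node `a` -/
noncomputable def terms (D : Circuit P H) (f : Finset (P × H)) (s : ℕ)
    (R : Finset (P × H) → D.N → Bool → Prop) (a : D.N) : Finset (Finset (P × H)) :=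
  open Classical in univ.filter fun T => PM T ∧ f ⊆ T ∧ T.card ≤ f.card + s ∧
    ∃ S, D.gate a = .and S ∧ ∃ x ∈ S, R T x.node (!x.pos)

theorem mem_terms {D : Circuit P H} {f : Finset (P × H)} {s : ℕ}
    {R : Finset (P × H) → D.N → Bool → Prop} {a : D.N} {T : Finset (P × H)} :
    T ∈ terms D f s R a ↔ PM T ∧ f ⊆ T ∧ T.card ≤ f.card + s ∧
      ∃ S, D.gate a = .and S ∧ ∃ x ∈ S, R T x.node (!x.pos) := by
  simp [terms]

/-- **Switching.** An evaluation of the nodes in `B` gives an evaluation of the nodes in `B'` if the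
children of the new nodes are in `B`. -/
theorem lift {D : Circuit P H} {B B' : Set D.N} {f : Finset (P × H)} {s l d : ℕ}
    {R : Finset (P × H) → D.N → Bool → Prop}
    (E : Ev D B f s (Fintype.card H) R) (hs : 1 ≤ s) (hBB : B ⊆ B')
    (hB' : ∀ a ∈ B', a ∉ B → ∃ S, D.gate a = .and S ∧ ∀ x ∈ S, x.node ∈ B)
    (hPH : Fintype.card P ≤ Fintype.card H + 1) (hHP : Fintype.card H ≤ Fintype.card P)
    (hl : l + f.card ≤ Fintype.card H)
    (hbig : (Fintype.card P - (Fintype.card H - l)) * (Fintype.card H - (Fintype.card H - l)) *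
      (8 * s * (l + 1) ^ 2) ≤ Fintype.card H - l + 1 - f.card)
    (hI : Nat.card D.N * l < 2 ^ (d + 1)) (hroom : 8 * (d + 2 * s) + 8 ≤ l) :
    ∃ (f' : Finset (P × H)) (R' : Finset (P × H) → D.N → Bool → Prop),
      Ev D B' f' (d + 2 * s) (Fintype.card H) R' ∧ f'.card = Fintype.card H - l := by
  classical
  have : Fintype D.N := Fintype.ofFinite D.N
  obtain ⟨f', hf', hff', hf'c, hgood⟩ := exists_good (fun a : D.N => (terms D f s R a).toList)
    (f := f) (s := s) (l := l) (D := d) hs (by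
      intro a T hT
      obtain ⟨-, h1, h2, -⟩ := mem_terms.1 (mem_toList.1 hT)
      rw [card_sdiff_of_subset h1]; omega) E.pmf hPH hHP hl hbig
      (by rw [← Nat.card_eq_fintype_card]; exact hI)
  -- the new values
  let F : Finset (P × H) → D.N → Prop := fun α a =>
    ∃ S, D.gate a = .and S ∧ ∃ x ∈ S, R α x.node (!x.pos)
  let G : Finset (P × H) → D.N → Prop := fun α a =>
    ∃ β, β ⊆ α ∧ f' ⊆ β ∧ β.card ≤ f'.card + d ∧ ∀ T ∈ terms D f s R a, ¬ PM (T ∪ β)
  let R' : Finset (P × H) → D.N → Bool → Prop := fun α a v =>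
    PM α ∧ f' ⊆ α ∧ ((a ∈ B ∧ R α a v) ∨ (a ∈ B' ∧ a ∉ B ∧ ((v = false ∧ F α a) ∨ (v = true ∧ G α a))))
  -- a false certificate
  have hcertF : ∀ {a α}, a ∈ B' → a ∉ B → PM α → F α a → ∃ T ∈ terms D f s R a, T ⊆ α := by
    rintro a α ha hab hα ⟨S, hS, x, hx, hR⟩
    obtain ⟨S', hS', hch⟩ := hB' a ha hab
    rw [hS] at hS'
    injection hS' with hS'
    subst hS'
    obtain ⟨T, h1, h2, h3, h4⟩ := E.cert (hch x hx) hR
    exact ⟨T, mem_terms.2 ⟨hα.mono h1, h2, h3, S, hS, x, hx, h4⟩, h1⟩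
  have hFG : ∀ {a α}, a ∈ B' → a ∉ B → PM α → F α a → G α a → False := by
    rintro a α ha hab hα h1 ⟨β, h2, -, -, h3⟩
    obtain ⟨T, h4, h5⟩ := hcertF ha hab hα h1
    exact h3 T h4 (hα.mono (union_subset h5 h2))
  have hFmono : ∀ {a α β}, a ∈ B' → a ∉ B → F α a → α ⊆ β → PM β → F β a := by
    rintro a α β ha hab ⟨S, hS, x, hx, hR⟩ h1 h2
    obtain ⟨S', hS', hch⟩ := hB' a ha hab
    rw [hS] at hS'
    injection hS' with hS'
    subst hS'
    exact ⟨S, hS, x, hx, E.mono (hch x hx) hR h1 h2⟩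
  have hvarB : ∀ {a i j}, a ∈ B' → D.gate a = .var i j → a ∈ B := by
    intro a i j ha hg
    by_contra h
    obtain ⟨S, hS, -⟩ := hB' a ha h
    rw [hg] at hS; cases hS
  refine ⟨f', R', ?_, hf'c⟩
  refine ⟨?_, hf', ?_, ?_, ?_, ?_, ?_, ?_, ?_, ?_, ?_, ?_, ?_⟩
  · -- closed
    intro a ha x hx
    by_cases hab : a ∈ B
    · exact hBB (E.closed a hab x hx)
    · obtain ⟨S, hS, h1⟩ := hB' a ha hab
      rw [hS] at hx
      exact hBB (h1 x hx)
  · -- mono
    rintro α β a v ha ⟨h1, h2, h3⟩ h4 h5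
    refine ⟨h5, h2.trans h4, ?_⟩
    rcases h3 with ⟨h3, h6⟩ | ⟨h3, h6, ⟨h7, h8⟩ | ⟨h7, β', h8, h9, h10, h11⟩⟩
    · exact Or.inl ⟨h3, E.mono h3 h6 h4 h5⟩
    · exact Or.inr ⟨h3, h6, Or.inl ⟨h7, hFmono h3 h6 h8 h4 h5⟩⟩
    · exact Or.inr ⟨h3, h6, Or.inr ⟨h7, β', h8.trans h4, h9, h10, h11⟩⟩
  · -- decide
    intro α a ha h1 h2 h3
    by_cases hab : a ∈ B
    · obtain ⟨β, v, h4, h5, h6, h7⟩ := E.decide hab h1 (hff'.trans h2) (by omega)
      exact ⟨β, v, h4, h5, by omega, h5, h2.trans h4, Or.inl ⟨hab, h7⟩⟩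
    · have hL : ∀ T ∈ (terms D f s R a).toList, (T \ f).card ≤ s := by
        intro T hT
        obtain ⟨-, h1, h2, -⟩ := mem_terms.1 (mem_toList.1 hT)
        rw [card_sdiff_of_subset h1]; omega
      obtain ⟨β, h4, h5, h6⟩ := good_decide hHP hL hff' (hgood a) h1 h2 (by omega)
      have h7 := hgood a β h4
      have h8 := path_mono h4
      have h9 : (β ∪ α).card ≤ α.card + d := by
        rw [union_comm, ← union_sdiff_self_eq_union]
        have e1 : (β \ f').card + f'.card = β.card := card_sdiff_add_card_eq_card h8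
        refine (card_union_le _ _).trans (Nat.add_le_add_left ?_ _)
        refine (card_le_card (sdiff_subset_sdiff subset_rfl h2)).trans (by omega)
      rcases hT : first (terms D f s R a).toList β with _ | T
      · refine ⟨β ∪ α, true, subset_union_right, h5, by omega, h5, h2.trans subset_union_right,
          Or.inr ⟨ha, hab, Or.inr ⟨rfl, β, subset_union_left, h8, h7, ?_⟩⟩⟩
        intro T hT2
        exact first_none hT T (mem_toList.2 hT2)
      · have h10 := h6 T hT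
        obtain ⟨-, -, -, S, hS, x, hx, h11⟩ := mem_terms.1 (mem_toList.1 (first_some hT).1)
        refine ⟨β ∪ α, false, subset_union_right, h5, by omega, h5, h2.trans subset_union_right,
          Or.inr ⟨ha, hab, Or.inl ⟨rfl, ?_⟩⟩⟩
        exact hFmono ha hab ⟨S, hS, x, hx, h11⟩ (h10.trans subset_union_left) h5
  · -- cert
    rintro α a v ha ⟨h1, h2, h3⟩
    have lemB : ∀ {c w}, c ∈ B → R α c w → ∃ β, β ⊆ α ∧ f' ⊆ β ∧ β.card ≤ f'.card + (d + 2 * s) ∧
        PM β ∧ R β c w := by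
      intro c w hc hw
      obtain ⟨β, h4, h5, h6, h7⟩ := E.cert hc hw
      have h8 : PM (β ∪ f') := h1.mono (union_subset h4 h2)
      refine ⟨β ∪ f', union_subset h4 h2, subset_union_right, ?_, h8,
        E.mono hc h7 subset_union_left h8⟩
      rw [union_comm, ← union_sdiff_self_eq_union]
      refine (card_union_le _ _).trans (Nat.add_le_add_left ?_ _)
      have e1 : (β \ f).card + f.card = β.card := card_sdiff_add_card_eq_card h5
      refine (card_le_card (sdiff_subset_sdiff subset_rfl hff')).trans (by omega)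
    rcases h3 with ⟨h3, h6⟩ | ⟨h3, h6, ⟨h7, S, hS, x, hx, h8⟩ | ⟨h7, β', h8, h9, h10, h11⟩⟩
    · obtain ⟨β, h4, h5, h7, h8, h9⟩ := lemB h3 h6
      exact ⟨β, h4, h5, h7, h8, h5, Or.inl ⟨h3, h9⟩⟩
    · obtain ⟨S', hS', hch⟩ := hB' a h3 h6
      rw [hS] at hS'
      injection hS' with hS'
      subst hS'
      obtain ⟨β, h4, h5, h9, h10, h11⟩ := lemB (hch x hx) h8
      exact ⟨β, h4, h5, h9, h10, h5, Or.inr ⟨h3, h6, Or.inl ⟨h7, S, hS, x, hx, h11⟩⟩⟩
    · exact ⟨β', h8, h9, by omega, h1.mono h8, h9,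
        Or.inr ⟨h3, h6, Or.inr ⟨h7, β', subset_rfl, h9, h10, h11⟩⟩⟩
  · -- pm
    rintro α a v ⟨h1, h2, -⟩; exact ⟨h1, h2⟩
  · -- cons
    rintro α a ⟨h1, -, h3⟩ ⟨-, -, h4⟩
    rcases h3 with ⟨h3, h6⟩ | ⟨h3, h6, ⟨h7, -⟩ | ⟨-, h8⟩⟩
    · rcases h4 with ⟨-, h9⟩ | ⟨-, h9, -⟩
      · exact E.cons h6 h9
      · exact h9 h3
    · cases h7
    · rcases h4 with ⟨h9, -⟩ | ⟨-, h9, ⟨-, h10⟩ | ⟨h10, -⟩⟩
      · exact h6 h9
      · exact hFG h3 h6 h1 h10 h8
      · cases h10
  · -- var_true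
    rintro α a i j ha hg ⟨-, -, h3⟩
    rcases h3 with ⟨h3, h6⟩ | ⟨h3, h6, -⟩
    · exact E.var_true h3 hg h6
    · exact absurd (hvarB ha hg) h6
  · -- var_false
    rintro α a i j ha hg ⟨-, -, h3⟩
    rcases h3 with ⟨h3, h6⟩ | ⟨h3, h6, -⟩
    · exact E.var_false h3 hg h6
    · exact absurd (hvarB ha hg) h6
  · -- and_true
    rintro α a S x v ha hg hx ⟨h1, h2, h3⟩ ⟨-, -, h4⟩ hM
    rcases h3 with ⟨h3, h6⟩ | ⟨h3, h6, ⟨h7, -⟩ | ⟨-, h8⟩⟩
    · have hxB : x.node ∈ B := E.closed a h3 x (by rw [hg]; exact hx)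
      rcases h4 with ⟨-, h9⟩ | ⟨-, h9, -⟩
      · exact E.and_true h3 hg hx h6 h9 (by omega)
      · exact absurd hxB h9
    · cases h7
    · obtain ⟨S', hS', hch⟩ := hB' a h3 h6
      rw [hg] at hS'
      injection hS' with hS'
      subst hS'
      rcases h4 with ⟨-, h9⟩ | ⟨-, h9, -⟩
      · by_contra hne
        have e : v = !x.pos := by
          cases v <;> cases hp : x.pos <;> simp_all
        rw [e] at h9
        exact hFG h3 h6 h1 ⟨S, hg, x, hx, h9⟩ h8
      · exact absurd (hch x hx) h9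
  · -- and_false
    rintro α a S ha hg ⟨h1, h2, h3⟩ hM
    rcases h3 with ⟨h3, h6⟩ | ⟨h3, h6, ⟨h7, S', hS', x, hx, h8⟩ | ⟨h7, -⟩⟩
    · obtain ⟨x, hx, β, h9, h10, h11, h12⟩ := E.and_false h3 hg h6 (by omega)
      have hxB : x.node ∈ B := E.closed a h3 x (by rw [hg]; exact hx)
      exact ⟨x, hx, β, h9, h10, by omega, h10, h2.trans h9, Or.inl ⟨hxB, h12⟩⟩
    · rw [hg] at hS'
      injection hS' with hS'
      subst hS'
      obtain ⟨S', hS', hch⟩ := hB' a h3 h6
      rw [hg] at hS'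
      injection hS' with hS'
      subst hS'
      exact ⟨x, hx, α, subset_rfl, h1, by omega, h1, h2, Or.inl ⟨hch x hx, h8⟩⟩
    · cases h7
  · -- ext
    intro α x h1 h2 h3
    exact E.ext x h1 (hff'.trans h2) h3
  · -- room
    omega

end Pool.Agent.H63.YP
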