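import Pool.Agent.H63.YL.EvP

/-!
# Counting the matchings with `k` pairs which contain a given matching
-/

set_option autoImplicit false
set_option linter.unusedSectionVars false

namespace Pool.Agent.H63.YP

open Finset Pool.Agent.H63.YL

variable {P H : Type} [Fintype P] [DecidableEq P] [Fintype H] [DecidableEq H]

/-- the matchings with `k` pairs which contain `f` -/
noncomputable def Om (f : Finset (P × H)) (k : ℕ) : Finset (Finset (P × H)) :=
  open Classical in univ.filter fun ρ => PM ρ ∧ f ⊆ ρ ∧ ρ.card = k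

theorem mem_Om {f ρ : Finset (P × H)} {k : ℕ} : ρ ∈ Om f k ↔ PM ρ ∧ f ⊆ ρ ∧ ρ.card = k := by
  simp [Om]

/-- the free pigeons -/
def fP (ρ : Finset (P × H)) : Finset P := univ \ ρ.image Prod.fst

/-- the free holes -/
def fH (ρ : Finset (P × H)) : Finset H := univ \ ρ.image Prod.snd

theorem card_fst {ρ : Finset (P × H)} (h : PM ρ) : (ρ.image Prod.fst).card = ρ.card := by
  apply card_image_of_injOn
  intro p hp q hq hpq
  exact Prod.ext hpq ((h p hp q hq).1 hpq)

theorem card_snd {ρ : Finset (P × H)} (h : PM ρ) : (ρ.image Prod.snd).card = ρ.card := by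
  apply card_image_of_injOn
  intro p hp q hq hpq
  exact Prod.ext ((h p hp q hq).2 hpq) hpq

theorem card_fP {ρ : Finset (P × H)} (h : PM ρ) : (fP ρ).card = Fintype.card P - ρ.card := by
  rw [fP, card_sdiff_of_subset (subset_univ _), card_univ, card_fst h]

theorem card_fH {ρ : Finset (P × H)} (h : PM ρ) : (fH ρ).card = Fintype.card H - ρ.card := by
  rw [fH, card_sdiff_of_subset (subset_univ _), card_univ, card_snd h]

theorem pm_card_H {ρ : Finset (P × H)} (h : PM ρ) : ρ.card ≤ Fintype.card H := by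
  rw [← card_snd h]; exact card_le_univ _

theorem pm_card_P {ρ : Finset (P × H)} (h : PM ρ) : ρ.card ≤ Fintype.card P := by
  rw [← card_fst h]; exact card_le_univ _

theorem mem_fP {ρ : Finset (P × H)} {i : P} : i ∈ fP ρ ↔ Sum.inl i ∉ dm ρ := by
  rw [fP, mem_sdiff, mem_image, inl_mem_dm]
  simp only [mem_univ, true_and, not_iff_not]
  constructor
  · rintro ⟨⟨a, b⟩, h, rfl⟩; exact ⟨b, h⟩
  · rintro ⟨j, h⟩; exact ⟨_, h, rfl⟩

theorem mem_fH {ρ : Finset (P × H)} {j : H} : j ∈ fH ρ ↔ Sum.inr j ∉ dm ρ := by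
  rw [fH, mem_sdiff, mem_image, inr_mem_dm]
  simp only [mem_univ, true_and, not_iff_not]
  constructor
  · rintro ⟨⟨a, b⟩, h, rfl⟩; exact ⟨a, h⟩
  · rintro ⟨j, h⟩; exact ⟨_, h, rfl⟩

/-- double counting -/
theorem om_succ (f : Finset (P × H)) (k : ℕ) :
    (Om f k).card * ((Fintype.card P - k) * (Fintype.card H - k)) =
      (Om f (k + 1)).card * (k + 1 - f.card) := by
  classical
  have h1 : ((Om f k).sigma fun ρ => fP ρ ×ˢ fH ρ).card =
      (Om f k).card * ((Fintype.card P - k) * (Fintype.card H - k)) := by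
    rw [card_sigma]
    have : ∀ ρ ∈ Om f k, (fP ρ ×ˢ fH ρ).card = (Fintype.card P - k) * (Fintype.card H - k) := by
      intro ρ hρ
      obtain ⟨h1, -, h2⟩ := mem_Om.1 hρ
      rw [card_product, card_fP h1, card_fH h1, h2]
    rw [sum_congr rfl this, sum_const, smul_eq_mul]
  have h2 : ((Om f (k + 1)).sigma fun τ => τ \ f).card =
      (Om f (k + 1)).card * (k + 1 - f.card) := by
    rw [card_sigma]
    have : ∀ τ ∈ Om f (k + 1), (τ \ f).card = k + 1 - f.card := by
      intro τ hτ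
      obtain ⟨-, h1, h2⟩ := mem_Om.1 hτ
      rw [card_sdiff_of_subset h1, h2]
    rw [sum_congr rfl this, sum_const, smul_eq_mul]
  rw [← h1, ← h2]
  refine card_nbij' (fun x => ⟨insert x.2 x.1, x.2⟩) (fun y => ⟨y.1.erase y.2, y.2⟩) ?_ ?_ ?_ ?_
  · rintro ⟨ρ, p⟩ hx
    simp only [coe_sigma, Set.mem_sigma_iff, mem_coe, mem_product] at hx ⊢
    obtain ⟨h3, h4, h5⟩ := hx
    obtain ⟨h6, h7, h8⟩ := mem_Om.1 h3
    have h9 : p ∉ ρ := fun h => mem_fP.1 h4 (inl_mem_dm.2 ⟨p.2, h⟩)
    refine ⟨mem_Om.2 ⟨?_, h7.trans (subset_insert _ _), ?_⟩, ?_⟩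
    · exact insert_pm h6 (i := p.1) (j := p.2) (mem_fP.1 h4) (mem_fH.1 h5)
    · rw [card_insert_of_notMem h9, h8]
    · rw [mem_sdiff]
      exact ⟨mem_insert_self _ _, fun h => h9 (h7 h)⟩
  · rintro ⟨τ, p⟩ hx
    simp only [coe_sigma, Set.mem_sigma_iff, mem_coe, mem_product, mem_sdiff] at hx ⊢
    obtain ⟨h3, h4, h5⟩ := hx
    obtain ⟨h6, h7, h8⟩ := mem_Om.1 h3
    refine ⟨mem_Om.2 ⟨h6.mono (erase_subset _ _), ?_, ?_⟩, ?_, ?_⟩
    · intro q hq
      exact mem_erase.2 ⟨fun h => h5 (h ▸ hq), h7 hq⟩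
    · rw [card_erase_of_mem h4, h8]; omega
    · rw [mem_fP, inl_mem_dm]
      rintro ⟨j, hj⟩
      obtain ⟨h9, h10⟩ := mem_erase.1 hj
      exact h9 (Prod.ext rfl ((h6 _ h10 _ h4).1 rfl))
    · rw [mem_fH, inr_mem_dm]
      rintro ⟨i, hi⟩
      obtain ⟨h9, h10⟩ := mem_erase.1 hi
      exact h9 (Prod.ext ((h6 _ h10 _ h4).2 rfl) rfl)
  · rintro ⟨ρ, p⟩ hx
    simp only [coe_sigma, Set.mem_sigma_iff, mem_coe, mem_product] at hx
    have h9 : p ∉ ρ := fun h => mem_fP.1 hx.2.1 (inl_mem_dm.2 ⟨p.2, h⟩)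
    simp only [erase_insert h9]
  · rintro ⟨τ, p⟩ hx
    simp only [coe_sigma, Set.mem_sigma_iff, mem_coe, mem_sdiff] at hx
    simp only [insert_erase hx.2.1]

theorem om_pow {f : Finset (P × H)} {k c : ℕ} (hf : f.card ≤ k)
    (h : (Fintype.card P - k) * (Fintype.card H - k) * c ≤ k + 1 - f.card) (j : ℕ) :
    (Om f (k + j)).card * c ^ j ≤ (Om f k).card := by
  induction j with
  | zero => simp
  | succ j ih =>
    refine le_trans ?_ ih
    have h1 := om_succ f (k + j)
    have h2 : 0 < k + j + 1 - f.card := by omega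
    refine Nat.le_of_mul_le_mul_right (c := k + j + 1 - f.card) ?_ h2
    have h3 : (Fintype.card P - (k + j)) * (Fintype.card H - (k + j)) ≤
        (Fintype.card P - k) * (Fintype.card H - k) := Nat.mul_le_mul (by omega) (by omega)
    calc (Om f (k + (j + 1))).card * c ^ (j + 1) * (k + j + 1 - f.card)
        = ((Om f (k + j + 1)).card * (k + j + 1 - f.card)) * (c * c ^ j) := by
          rw [← add_assoc, pow_succ]; ring
      _ = (Om f (k + j)).card * ((Fintype.card P - (k + j)) * (Fintype.card H - (k + j)) * c) *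
          c ^ j := by rw [← h1]; ring
      _ ≤ (Om f (k + j)).card * (k + j + 1 - f.card) * c ^ j := by
          refine Nat.mul_le_mul_right _ (Nat.mul_le_mul_left _ ?_)
          refine (Nat.mul_le_mul_right c h3).trans (h.trans (by omega))
      _ = (Om f (k + j)).card * c ^ j * (k + j + 1 - f.card) := by ring

theorem om_pos {f : Finset (P × H)} (hf : PM f) {k : ℕ} (h1 : f.card ≤ k)
    (h2 : k ≤ Fintype.card H) (h3 : Fintype.card H ≤ Fintype.card P) : 0 < (Om f k).card := by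
  have key : ∀ j, f.card + j ≤ Fintype.card H → ∃ ρ : Finset (P × H), PM ρ ∧ f ⊆ ρ ∧
      ρ.card = f.card + j := by
    intro j
    induction j with
    | zero => intro _; exact ⟨f, hf, subset_rfl, rfl⟩
    | succ j ih =>
      intro h
      obtain ⟨ρ, h4, h5, h6⟩ := ih (by omega)
      obtain ⟨i, hi⟩ : (fP ρ).Nonempty := by
        rw [← card_pos, card_fP h4]; omega
      obtain ⟨i', hi'⟩ : (fH ρ).Nonempty := by
        rw [← card_pos, card_fH h4]; omega
      refine ⟨insert (i, i') ρ, insert_pm h4 (mem_fP.1 hi) (mem_fH.1 hi'),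
        h5.trans (subset_insert _ _), ?_⟩
      rw [card_insert_of_notMem, h6]
      · omega
      · intro h7; exact mem_fP.1 hi (inl_mem_dm.2 ⟨_, h7⟩)
  obtain ⟨ρ, h4, h5, h6⟩ := key (k - f.card) (by omega)
  exact card_pos.2 ⟨ρ, mem_Om.2 ⟨h4, h5, by omega⟩⟩

end Pool.Agent.H63.YP
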