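import Pool.Agent.H63.YP.En

/-!
# Paths in the canonical decision tree
-/

set_option autoImplicit false
set_option linter.unusedSectionVars false

namespace Pool.Agent.H63.YP

open Finset Pool.Agent.H63.YL Relation

variable {P H : Type} [Fintype P] [DecidableEq P] [Fintype H] [DecidableEq H]

/-- one stage of the canonical decision tree: all points of the first compatible term are matched -/
def Next (L : List (Finset (P × H))) (β β' : Finset (P × H)) : Prop :=
  ∃ T, first L β = some T ∧ ¬ T ⊆ β ∧ β ⊆ β' ∧ PM β' ∧ Cov (T \ β) (β' \ β)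

theorem dm_card (σ : Finset (P × H)) : (dm σ).card ≤ 2 * σ.card := by
  unfold dm
  refine (card_union_le _ _).trans ?_
  have h1 := card_image_le (s := σ) (f := fun p => (Sum.inl p.1 : P ⊕ H))
  have h2 := card_image_le (s := σ) (f := fun p => (Sum.inr p.2 : P ⊕ H))
  omega

theorem cov_card {σ π : Finset (P × H)} (hπ : PM π) (h : Cov σ π) : π.card ≤ 2 * σ.card := by
  classical
  refine le_trans ?_ (dm_card σ)
  have h1 : ∀ p : P × H, ∃ x, p ∈ π → x ∈ dm σ ∧ Touch p x := by
    intro p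
    by_cases hp : p ∈ π
    · obtain ⟨x, hx, hx'⟩ := h.2 p hp
      exact ⟨x, fun _ => ⟨hx, hx'⟩⟩
    · exact ⟨Sum.inl p.1, fun h => absurd h hp⟩
  choose φ hφ using h1
  refine card_le_card_of_injOn φ (fun p hp => (hφ p hp).1) ?_
  intro p hp q hq hpq
  have h2 := (hφ p hp).2
  rw [hpq] at h2
  exact hπ.eq_of_touch hp hq h2 (hφ q hq).2

/-- a long path gives a code -/
theorem path_en {L : List (Finset (P × H))} {f ρ β : Finset (P × H)}
    (h : ReflTransGen (Next L) ρ β) : PM ρ → f ⊆ ρ →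
    ∃ j τ, En L f j τ ρ ∧ ρ ⊆ τ ∧ PM τ ∧ τ.card = ρ.card + j ∧ β.card ≤ ρ.card + 2 * j := by
  classical
  induction h using ReflTransGen.head_induction_on with
  | refl =>
    intro h1 _
    exact ⟨0, β, En.nil _, subset_rfl, h1, by omega, by omega⟩
  | @head ρ β₁ h1 _ ih =>
    intro hρ hf
    obtain ⟨T, hT, hT2, h2, h3, h4⟩ := h1
    obtain ⟨j, τ₁, h5, h6, h7, h8, h9⟩ := ih h3 (hf.trans h2)
    obtain ⟨hTL, hTρ⟩ := first_some hT
    set σ := T \ ρ with hσ
    set π := β₁ \ ρ with hπ
    have hπτ : π ⊆ τ₁ := sdiff_subset.trans h6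
    -- the points of `σ` are free in `τ₁ \ π`
    have hfree : ∀ p ∈ τ₁ \ π, ∀ x ∈ dm σ, ¬ Touch p x := by
      intro p hp x hx hpx
      obtain ⟨hp1, hp2⟩ := mem_sdiff.1 hp
      obtain ⟨q, hq, hqx⟩ := mem_dm.1 (h4.1 hx)
      have := h7.eq_of_touch hp1 (hπτ hq) hpx hqx
      exact hp2 (this ▸ hq)
    have hσPM : PM σ := hTρ.mono (sdiff_subset.trans subset_union_left)
    have hdisj : Disjoint (τ₁ \ π) σ := by
      rw [disjoint_left]
      intro p hp hp2
      exact hfree p hp (Sum.inl p.1) (inl_mem_dm.2 ⟨p.2, hp2⟩) (Or.inl rfl)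
    have hτPM : PM ((τ₁ \ π) ∪ σ) := by
      have key : ∀ p ∈ τ₁ \ π, ∀ q ∈ σ, p.1 ≠ q.1 ∧ p.2 ≠ q.2 := by
        intro p hp q hq
        refine ⟨fun e => ?_, fun e => ?_⟩
        · exact hfree p hp (Sum.inl q.1) (inl_mem_dm.2 ⟨q.2, hq⟩) (Or.inl (by rw [e]))
        · exact hfree p hp (Sum.inr q.2) (inr_mem_dm.2 ⟨q.1, hq⟩) (Or.inr (by rw [e]))
      intro p hp q hq
      rcases mem_union.1 hp with hp | hp <;> rcases mem_union.1 hq with hq | hq
      · exact h7 p (mem_sdiff.1 hp).1 q (mem_sdiff.1 hq).1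
      · have := key p hp q hq
        exact ⟨fun e => absurd e this.1, fun e => absurd e this.2⟩
      · have := key q hq p hp
        exact ⟨fun e => absurd e.symm this.1, fun e => absurd e.symm this.2⟩
      · exact hσPM p hp q hq
    have hρτ : ρ ⊆ τ₁ \ π := by
      intro p hp
      rw [mem_sdiff]
      refine ⟨h6 (h2 hp), ?_⟩
      rw [hπ, mem_sdiff]
      exact fun h => h.2 hp
    have e1 : ((τ₁ \ π) ∪ σ) \ σ = τ₁ \ π := by
      rw [union_sdiff_right]
      exact sdiff_eq_self_of_disjoint hdisj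
    have e2 : (τ₁ \ π) ∪ π = τ₁ := sdiff_union_of_subset hπτ
    have e3 : β₁ \ π = ρ := by
      rw [hπ]; exact Finset.sdiff_sdiff_eq_self h2
    have hne : σ.Nonempty := by
      rw [hσ, nonempty_iff_ne_empty, ne_eq, sdiff_eq_empty_iff_subset]; exact hT2
    have c1 : (τ₁ \ π).card + π.card = τ₁.card := card_sdiff_add_card_eq_card hπτ
    have c2 : π.card + ρ.card = β₁.card := card_sdiff_add_card_eq_card h2
    have c3 := card_union_of_disjoint hdisj
    have c4 := cov_card (h3.mono sdiff_subset) h4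
    rw [← hπ] at c4
    refine ⟨j + σ.card, (τ₁ \ π) ∪ σ, ?_, hρτ.trans subset_union_left, hτPM, ?_, ?_⟩
    · have h10 : En L f (j + σ.card) ((τ₁ \ π) ∪ σ) (β₁ \ π) := by
        refine En.cons (T := T) ?_ ?_ subset_union_right hne h4 ?_ ?_ ?_
        · refine first_mono hT (hρτ.trans subset_union_left) ?_
          have : T ∪ ((τ₁ \ π) ∪ σ) = (τ₁ \ π) ∪ σ := by
            rw [union_eq_right]
            intro p hp
            by_cases h : p ∈ ρ
            · exact mem_union_left _ (hρτ h)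
            · exact mem_union_right _ (mem_sdiff.2 ⟨hp, h⟩)
          rw [this]; exact hτPM
        · rw [hσ]; exact sdiff_subset_sdiff subset_rfl hf
        · rw [e1, e2]; exact h7
        · rw [e1]; exact sdiff_disjoint
        · rw [e1, e2]; exact h5
      rw [e3] at h10
      exact h10
    · omega
    · omega

/-- a further stage compatible with `α` -/
theorem exists_next {L : List (Finset (P × H))} {f β α T : Finset (P × H)} {s : ℕ}
    (hPH : Fintype.card H ≤ Fintype.card P) (hL : ∀ T ∈ L, (T \ f).card ≤ s) (hf : f ⊆ β)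
    (h : PM (β ∪ α)) (hT : first L β = some T) (hTβ : ¬ T ⊆ β)
    (hroom : (β ∪ α).card + 2 * s ≤ Fintype.card H) :
    ∃ β', Next L β β' ∧ PM (β' ∪ α) ∧ β.card < β'.card := by
  classical
  obtain ⟨hTL, hTPM⟩ := first_some hT
  set σ := T \ β with hσ
  have hσs : σ.card ≤ s := (card_le_card (sdiff_subset_sdiff subset_rfl hf)).trans (hL T hTL)
  have h1 := dm_card σ
  obtain ⟨γ, h2, h3, -, h4⟩ := ext_many hPH (dm σ) h (by omega)
  set π := γ.filter fun p => ∃ x ∈ dm σ, Touch p x with hπ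
  have hne : σ.Nonempty := by
    rw [hσ, nonempty_iff_ne_empty, ne_eq, sdiff_eq_empty_iff_subset]; exact hTβ
  -- pairs which touch `σ` are new
  have hnew : ∀ p ∈ π, p ∉ β := by
    intro p hp hpβ
    obtain ⟨-, x, hx, hpx⟩ := mem_filter.1 hp
    obtain ⟨q, hq, hqx⟩ := mem_dm.1 hx
    obtain ⟨hq1, hq2⟩ := mem_sdiff.1 hq
    have := hTPM.eq_of_touch (mem_union_right _ hpβ) (mem_union_left _ hq1) hpx hqx
    exact hq2 (this ▸ hpβ)
  have hπγ : π ⊆ γ := filter_subset _ _
  have hβγ : β ⊆ γ := subset_union_left.trans h2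
  have e1 : (β ∪ π) \ β = π := by
    rw [union_sdiff_left]
    exact sdiff_eq_self_of_disjoint (disjoint_left.2 hnew)
  have hcov : Cov σ π := by
    refine ⟨?_, fun p hp => (mem_filter.1 hp).2⟩
    intro x hx
    obtain ⟨p, hp, hpx⟩ := mem_dm.1 (h4 hx)
    exact mem_dm.2 ⟨p, mem_filter.2 ⟨hp, x, hx, hpx⟩, hpx⟩
  refine ⟨β ∪ π, ⟨T, hT, hTβ, subset_union_left, h3.mono (union_subset hβγ hπγ), ?_⟩, ?_, ?_⟩
  · rw [e1]; exact hcov
  · refine h3.mono (union_subset (union_subset hβγ hπγ) (subset_union_right.trans h2))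
  · obtain ⟨q, hq⟩ := hne
    obtain ⟨p, hp, -⟩ := mem_dm.1 (hcov.1 (inl_mem_dm.2 ⟨q.2, hq⟩))
    apply card_lt_card
    rw [ssubset_iff_of_subset subset_union_left]
    exact ⟨p, mem_union_right _ hp, hnew p hp⟩

theorem path_mono {L : List (Finset (P × H))} {ρ β : Finset (P × H)}
    (h : ReflTransGen (Next L) ρ β) : ρ ⊆ β := by
  induction h with
  | refl => exact subset_rfl
  | tail _ h ih =>
    obtain ⟨-, -, -, h1, -⟩ := h
    exact ih.trans h1

/-- if all paths are short then every matching is compatible with the end of some path -/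
theorem good_decide {L : List (Finset (P × H))} {f ρ α : Finset (P × H)} {s D : ℕ}
    (hPH : Fintype.card H ≤ Fintype.card P)
    (hL : ∀ T ∈ L, (T \ f).card ≤ s) (hf : f ⊆ ρ)
    (hgood : ∀ β, ReflTransGen (Next L) ρ β → β.card ≤ ρ.card + D)
    (hα : PM α) (hρα : ρ ⊆ α) (hroom : α.card + D + 2 * s ≤ Fintype.card H) :
    ∃ β, ReflTransGen (Next L) ρ β ∧ PM (β ∪ α) ∧ ∀ T, first L β = some T → T ⊆ β := by
  classical
  have key : ∀ (k : ℕ) (β : Finset (P × H)), ρ.card + D ≤ β.card + k →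
      ReflTransGen (Next L) ρ β → PM (β ∪ α) →
      ∃ β, ReflTransGen (Next L) ρ β ∧ PM (β ∪ α) ∧ ∀ T, first L β = some T → T ⊆ β := by
    intro k
    induction k with
    | zero =>
      intro β h1 h2 h3
      refine ⟨β, h2, h3, ?_⟩
      by_contra hcon
      push Not at hcon
      obtain ⟨T, hT, hTβ⟩ := hcon
      have hρβ := path_mono h2
      have h4 := hgood β h2
      have h5 : (β ∪ α).card ≤ α.card + (β \ ρ).card := by
        rw [union_comm, ← union_sdiff_self_eq_union]
        refine (card_union_le _ _).trans (Nat.add_le_add_left (card_le_card ?_) _)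
        exact sdiff_subset_sdiff subset_rfl hρα
      have h6 : (β \ ρ).card + ρ.card = β.card := card_sdiff_add_card_eq_card hρβ
      obtain ⟨β', h7, -, h8⟩ := exists_next hPH hL (hf.trans hρβ) h3 hT hTβ (by omega)
      have := hgood β' (h2.tail h7)
      omega
    | succ k ih =>
      intro β h1 h2 h3
      by_cases hstop : ∀ T, first L β = some T → T ⊆ β
      · exact ⟨β, h2, h3, hstop⟩
      push Not at hstop
      obtain ⟨T, hT, hTβ⟩ := hstop
      have hρβ := path_mono h2
      have h4 := hgood β h2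
      have h5 : (β ∪ α).card ≤ α.card + (β \ ρ).card := by
        rw [union_comm, ← union_sdiff_self_eq_union]
        refine (card_union_le _ _).trans (Nat.add_le_add_left (card_le_card ?_) _)
        exact sdiff_subset_sdiff subset_rfl hρα
      have h6 : (β \ ρ).card + ρ.card = β.card := card_sdiff_add_card_eq_card hρβ
      obtain ⟨β', h7, h8, h9⟩ := exists_next hPH hL (hf.trans hρβ) h3 hT hTβ (by omega)
      exact ih β' (by omega) (h2.tail h7) h8
  exact key D ρ (by omega) ReflTransGen.refl (by rwa [union_eq_right.2 hρα])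

end Pool.Agent.H63.YP
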